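import Mathlib

/-!
# Loose cycles in 3-graphs and Lagrangians: definitions shared by the files for `MP_6d1569_co`
-/

namespace Pool.Agent.Helper52.LC

open Finset

variable {V : Type*} [Fintype V] [DecidableEq V]

/-- A family of subsets of `V` is (the edge set of) a 3-graph on `V` if all its members have
exactly three elements. -/
def IsThreeGraph (E : Finset (Finset V)) : Prop := ∀ e ∈ E, e.card = 3

/-- The Lagrange polynomial `∑_{ijk ∈ E} x_i x_j x_k`. -/
noncomputable def lagPoly (E : Finset (Finset V)) (x : V → ℝ) : ℝ := ∑ e ∈ E, ∏ i ∈ e, x i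

/-- The Lagrangian of the 3-graph `E`: the supremum (a maximum) of the Lagrange polynomial over the
standard simplex. -/
noncomputable def lag (E : Finset (Finset V)) : ℝ := sSup (lagPoly E '' stdSimplex ℝ V)

/-- The complete 3-graph on `V`. -/
def completeThree (V : Type*) [Fintype V] [DecidableEq V] : Finset (Finset V) :=
  Finset.powersetCard 3 Finset.univ

/-- The edges of the 3-uniform linear (loose) cycle `C_t^3` on the vertex set `Fin (2 * t)`
(vertices numbered from `0`): `{2i, 2i+1, 2i+2}`, `i < t`, the last one read modulo `2t`. -/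
def cycEdge (t : ℕ) (ht : 0 < t) (i : Fin t) : Finset (Fin (2 * t)) :=
  {⟨2 * i.1, by omega⟩, ⟨2 * i.1 + 1, by omega⟩,
    ⟨(2 * i.1 + 2) % (2 * t), Nat.mod_lt _ (by omega)⟩}

/-- The 3-graph `E` has a subgraph isomorphic to `C_t^3`. -/
def HasLooseCycle (t : ℕ) (ht : 0 < t) (E : Finset (Finset V)) : Prop :=
  ∃ f : Fin (2 * t) → V, Function.Injective f ∧ ∀ i : Fin t, (cycEdge t ht i).image f ∈ E

/-- The core statement for `t`: a 3-graph on at least `2t` vertices with a positive weight vector,
sorted non-increasingly, of total weight one, all of whose weighted (ordered) links are equal to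
`θ ≥ (2t-2)(2t-3)/(2t-1)^2 = 6 λ(K_{2t-1})`, contains `C_t^3`. -/
def Core (t : ℕ) (ht : 0 < t) : Prop :=
  ∀ (n : ℕ) (E : Finset (Finset (Fin n))) (x : Fin n → ℝ) (θ : ℝ),
    IsThreeGraph E → 2 * t ≤ n → (∀ i, 0 < x i) → (∀ i j, i ≤ j → x j ≤ x i) →
    ∑ i, x i = 1 →
    ((2 * t - 2) * (2 * t - 3) : ℝ) / (2 * t - 1) ^ 2 ≤ θ →
    (∀ a, ∑ b, ∑ c, (if ({a, b, c} : Finset (Fin n)) ∈ E then x b * x c else 0) = θ) →
    HasLooseCycle t ht E

end Pool.Agent.Helper52.LC
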