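import Mathlib

namespace Pool.Agent.Helper52.LC

theorem A5x (a b U Q : ℝ) (hb : 0 ≤ b) (hba : b ≤ a) (ha : a ≤ 1 / 2) (hU1 : U ≤ a + 8 * b)
    (hU : U < 1) (hU0 : 0 ≤ U) (hQ : U ^ 2 / 9 ≤ Q) (hm : 0 ≤ 25 / 81 - Q - 2 * a * (1 - a)) :
    a + b + (25 / 81 - Q - 2 * b * (1 - b)) / (1 - U) < 1 := by
  obtain ⟨r, hr⟩ : ∃ r, r = 1 - U := ⟨_, rfl⟩
  have hr0 : 0 < r := by linarith
  have hr1 : r ≤ 1 := by linarith
  have hUr : U = 1 - r := by linarith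
  obtain ⟨s, hs⟩ : ∃ s, s = r * (1 - r / 2) := ⟨_, rfl⟩
  have hs1 : s ≤ 1 / 2 := by rw [hs]; nlinarith [sq_nonneg (r - 1)]
  have hs0 : 0 ≤ s := by rw [hs]; exact mul_nonneg hr0.le (by linarith)
  obtain ⟨p, hp⟩ : ∃ p, p = (1 + s * (13 / 9)) / 9 := ⟨_, rfl⟩
  have hp1 : p ≤ 1 / 5 := by rw [hp]; linarith
  have hp0 : 0 ≤ p := by rw [hp]; linarith
  have hK : 25 / 81 - Q ≤ 25 / 81 - (1 - 2 * s) / 9 := by
    rw [hUr] at hQ
    have : (1 - r) ^ 2 = 1 - 2 * s := by rw [hs]; ring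
    rw [this] at hQ; linarith
  have hval : 25 / 81 - (1 - 2 * s) / 9 ≤ 2 * p * (1 - p) := by
    have : 2 * p * (1 - p) - (25 / 81 - (1 - 2 * s) / 9) = s * (20 / 729 - 338 / 6561 * s) := by
      rw [hp]; ring
    have h2 : 0 ≤ s * (20 / 729 - 338 / 6561 * s) := mul_nonneg hs0 (by linarith)
    linarith
  have hap : a ≤ p := by
    by_contra hcon
    push Not at hcon
    nlinarith [mul_pos (sub_pos.mpr hcon) (show 0 < 1 - a - p by linarith)]
  -- replace b by its lower bound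
  obtain ⟨c, hc⟩ : ∃ c, c = (1 - r - p) / 8 := ⟨_, rfl⟩
  have hcb : c ≤ (1 - r - a) / 8 := by rw [hc]; linarith
  have hcb2 : (1 - r - a) / 8 ≤ b := by linarith
  have hρ : 0 < 1 - U := by linarith
  rw [← hr]
  have h1 : (25 / 81 - Q - 2 * b * (1 - b)) / r ≤ (25 / 81 - (1 - 2 * s) / 9 - 2 * b * (1 - b)) / r :=
    div_le_div_of_nonneg_right (by linarith) hr0.le
  have h2 : a + b + (25 / 81 - (1 - 2 * s) / 9 - 2 * b * (1 - b)) / r
      ≤ p + c + (25 / 81 - (1 - 2 * s) / 9 - 2 * c * (1 - c)) / r := by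
    rw [← sub_nonneg]
    have e : p + c + (25 / 81 - (1 - 2 * s) / 9 - 2 * c * (1 - c)) / r
        - (a + b + (25 / 81 - (1 - 2 * s) / 9 - 2 * b * (1 - b)) / r)
        = ((p - a) * r + (b - c) * (2 * (1 - b - c) - r)) / r := by
      field_simp
      ring
    rw [e]
    apply div_nonneg _ hr0.le
    have hc1 : c ≤ 1 / 8 := by rw [hc]; linarith
    have h3 : 0 ≤ (p - a) * r := mul_nonneg (by linarith) hr0.le
    have h4 : 0 ≤ (b - c) * (2 * (1 - b - c) - r) := mul_nonneg (by linarith) (by linarith)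
    linarith
  have h5 : p + c + (25 / 81 - (1 - 2 * s) / 9 - 2 * c * (1 - c)) / r < 1 := by
    have e : 1 - (p + c + (25 / 81 - (1 - 2 * s) / 9 - 2 * c * (1 - c)) / r)
        = 481 / 1458 + 454 / 6561 * r + 3991 / 52488 * r ^ 2 - 169 / 839808 * r ^ 3 := by
      rw [hc, hp, hs]
      field_simp
      ring
    have h6 : r ^ 3 ≤ 1 := pow_le_one₀ hr0.le hr1
    have h7 : 0 ≤ r ^ 2 := sq_nonneg r
    linarith
  linarith

end Pool.Agent.Helper52.LC
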