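import Pool.Agent.Helper52.LC.Large
import Pool.Agent.Helper39.LCMain
import Pool.Agent.Helper66.LCCore45
import Pool.Agent.Helper5.LCIneq

namespace Pool.Agent.Helper52.LC

open Finset

theorem core_four : Core 4 (by norm_num) :=
  Pool.Agent.Helper66.LC.core4_of
    (fun a b V U Q h1 h2 h3 h4 h5 h6 h7 h8 h9 =>
      Pool.Agent.Helper5.LCIneq.F1x a b V U Q h1 h2 h3 h4 h5 h6 h7 h8 h9)
    (fun a b c V U Q h1 h2 h3 h4 h5 h6 h7 h8 h9 h10 =>
      Pool.Agent.Helper5.LCIneq.F2x a b c V U Q h1 h2 h3 h4 h5 h6 h7 h8 h9 h10)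

theorem core_five : Core 5 (by norm_num) :=
  Pool.Agent.Helper66.LC.core5_of
    (fun a b c d V U Q h1 h2 h3 h4 h5 h6 h7 h8 h9 h10 h11 =>
      Pool.Agent.Helper5.LCIneq.C5x a b c d V U Q h1 h2 h3 h4 h5 h6 h7 h8 h9 h10 h11)
    (fun a V U Q h1 h2 h3 h4 h5 h6 h7 h8 h9 =>
      Pool.Agent.Helper5.LCIneq.B5x a V U Q h1 h2 h3 h4 h5 h6 h7 h8 h9)

theorem core_all (t : ℕ) (ht : 4 ≤ t) : Core t (by omega) := by
  rcases Nat.lt_or_ge t 6 with h | h
  · interval_cases t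
    · exact core_four
    · exact core_five
  · rcases Nat.even_or_odd' t with ⟨k, hk | hk⟩
    · subst hk; exact core_even k (by omega)
    · subst hk; exact core_odd k (by omega)

end Pool.Agent.Helper52.LC
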