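import Pool.Agent.Helper52.LC.Defs

/-!
# Loose cycles: weights, availabilities, bad partners (shared notation)
-/

namespace Pool.Agent.Helper52.LC

open Finset

variable {n : ℕ}

/-- The total weight of the first `k` vertices (the `k` heaviest ones when `x` is sorted). -/
def W (x : Fin n → ℝ) (k : ℕ) : ℝ := ∑ i ∈ univ.filter (fun i : Fin n => i.1 < k), x i

/-- The vertices `m` such that `{a, b, m}` is an edge. -/
def avail {V : Type*} [Fintype V] [DecidableEq V] (E : Finset (Finset V)) (a b : V) : Finset V :=
  univ.filter (fun m => ({a, b, m} : Finset V) ∈ E)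

/-- The partners `b ≠ a` for which the pair `{a, b}` has codegree less than `q`. -/
def bad (E : Finset (Finset (Fin n))) (q : ℕ) (a : Fin n) : Finset (Fin n) :=
  univ.filter (fun b => b ≠ a ∧ (avail E a b).card < q)

/-- The missing (ordered) link weight of `a`, when all ordered link weights are `θ`. -/
def mu (x : Fin n → ℝ) (θ : ℝ) (a : Fin n) : ℝ :=
  1 - 2 * x a + 2 * x a ^ 2 - ∑ i, x i ^ 2 - θ

end Pool.Agent.Helper52.LC
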