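import Mathlib

namespace Pool.Agent.Helper52.LC

set_option maxRecDepth 100000

theorem pb1_pos (r e : ℝ) (h1 : 0 ≤ r) (h2 : r ≤ 19/50) (h3 : 0 ≤ e) (h4 : e ≤ 1/13) :
    0 < (1-1/4*(1+3*e)*(1-r)-e*(4-4*e-(1-2*e)*r))*(1-1/2*(1-e)*(1-r)) - (e*(2-2*e+2*r-r^2)) := by
  have key : ∀ u a v b : ℝ, 0 ≤ u → 0 ≤ a → 0 ≤ v → 0 ≤ b → 0 ≤ (6865625/1444)*a^2*b^3
      + (13836875/1444)*a^2*v^1*b^2
      + (7288125/1444)*a^2*v^2*b^1
      + (336875/1444)*a^2*v^3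
      + (8952775/722)*u^1*a^1*b^3
      + (9447100/361)*u^1*a^1*v^1*b^2
      + (5623150/361)*u^1*a^1*v^2*b^1
      + (1319175/722)*u^1*a^1*v^3
      + (22872967/2888)*u^2*b^3
      + (51136527/2888)*u^2*v^1*b^2
      + (17213079/1444)*u^2*v^2*b^1
      + (3091343/1444)*u^2*v^3 := by
    intro u a v b hu ha hv hb; positivity
  have h := key (r - 0) (19/50 - r) (e - 0) (1/13 - e) (by linarith) (by linarith) (by linarith) (by linarith)
  have h' : (0:ℝ) < 1/16 := by norm_num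
  refine lt_of_lt_of_le h' ?_
  rw [← sub_nonneg]
  refine le_of_le_of_eq h ?_
  ring

theorem pb2_pos (r e : ℝ) (h1 : 0 ≤ r) (h2 : r ≤ 19/50) (h3 : 0 ≤ e) (h4 : e ≤ 1/13) :
    0 < (1-1/4*(1+3*e)*(1+(r*((1-r/2)*(1+18/5*e)))))*(1-1/2*(1-e)*(1+(r*((1-r/2)*(1+18/5*e))))) - (e*(2-2*e+2*r-r^2)) := by
  have key : ∀ u a v b : ℝ, 0 ≤ u → 0 ≤ a → 0 ≤ v → 0 ≤ b → 0 ≤ (524362109375/1042568)*a^4*b^4
      + (469437109375/260642)*a^4*v^1*b^3
      + (1250401953125/521284)*a^4*v^2*b^2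
      + (366452734375/260642)*a^4*v^3*b^1
      + (318393359375/1042568)*a^4*v^4
      + (456529734375/260642)*u^1*a^3*b^4
      + (784686012500/130321)*u^1*a^3*v^1*b^3
      + (991394665625/130321)*u^1*a^3*v^2*b^2
      + (541707400000/130321)*u^1*a^3*v^3*b^1
      + (213467759375/260642)*u^1*a^3*v^4
      + (1204756531875/521284)*u^2*a^2*b^4
      + (1980421662375/260642)*u^2*a^2*v^1*b^3
      + (1174429743825/130321)*u^2*a^2*v^2*b^2
      + (1165511225775/260642)*u^2*a^2*v^3*b^1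
      + (389372724525/521284)*u^2*a^2*v^4
      + (714161378775/521284)*u^3*a^1*b^4
      + (1118947731655/260642)*u^3*a^1*v^1*b^3
      + (2459821091741/521284)*u^3*a^1*v^2*b^2
      + (265442181004/130321)*u^3*a^1*v^3*b^1
      + (62826647279/260642)*u^3*a^1*v^4
      + (1285988185781/4170272)*u^4*b^4
      + (9582245627461/10425680)*u^4*v^1*b^3
      + (96225050156521/104256800)*u^4*v^2*b^2
      + (8382714142699/26064200)*u^4*v^3*b^1
      + (244063960487/26064200)*u^4*v^4 := by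
    intro u a v b hu ha hv hb; positivity
  have h := key (r - 0) (19/50 - r) (e - 0) (1/13 - e) (by linarith) (by linarith) (by linarith) (by linarith)
  have h' : (0:ℝ) < 1/128 := by norm_num
  refine lt_of_lt_of_le h' ?_
  rw [← sub_nonneg]
  refine le_of_le_of_eq h ?_
  ring

theorem pb3_pos (r e : ℝ) (h1 : 19/50 ≤ r) (h2 : r ≤ 1) (h3 : 0 ≤ e) (h4 : e ≤ 1/13) :
    0 < (1-1/4*(1+3*e)*(1-r)-e*(4-4*e-(1-2*e)*r))*r - (e*(2-2*e+2*r-r^2)) := by
  have key : ∀ u a v b : ℝ, 0 ≤ u → 0 ≤ a → 0 ≤ v → 0 ≤ b → 0 ≤ (2065011/15376)*a^2*b^2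
      + (981357/7688)*a^2*v^1*b^1
      + (26951/15376)*a^2*v^2
      + (4034875/7688)*u^1*a^1*b^2
      + (2575625/3844)*u^1*a^1*v^1*b^1
      + (1276375/7688)*u^1*a^1*v^2
      + (6654375/15376)*u^2*b^2
      + (5094375/7688)*u^2*v^1*b^1
      + (3694375/15376)*u^2*v^2 := by
    intro u a v b hu ha hv hb; positivity
  have h := key (r - 19/50) (1 - r) (e - 0) (1/13 - e) (by linarith) (by linarith) (by linarith) (by linarith)
  have h' : (0:ℝ) < 1/64 := by norm_num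
  refine lt_of_lt_of_le h' ?_
  rw [← sub_nonneg]
  refine le_of_le_of_eq h ?_
  ring

theorem pb4_pos (r e : ℝ) (h1 : 19/50 ≤ r) (h2 : r ≤ 1) (h3 : 0 ≤ e) (h4 : e ≤ 1/13) :
    0 < (1-1/4*(1+3*e)*(1+(r*((1-r/2)*(1+18/5*e)))))*r - (e*(2-2*e+2*r-r^2)) := by
  have key : ∀ u a v b : ℝ, 0 ≤ u → 0 ≤ a → 0 ≤ v → 0 ≤ b → 0 ≤ (20291323/119164)*a^3*b^2
      + (204743071/1191640)*a^3*v^1*b^1
      + (10250827/1191640)*a^3*v^2
      + (186098575/238328)*u^1*a^2*b^2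
      + (28535130/29791)*u^1*a^2*v^1*b^1
      + (46325405/238328)*u^1*a^2*v^2
      + (243465625/238328)*u^2*a^1*b^2
      + (160600375/119164)*u^2*a^1*v^1*b^1
      + (80522125/238328)*u^2*a^1*v^2
      + (102984375/238328)*u^3*b^2
      + (73246875/119164)*u^3*v^1*b^1
      + (44159375/238328)*u^3*v^2 := by
    intro u a v b hu ha hv hb; positivity
  have h := key (r - 19/50) (1 - r) (e - 0) (1/13 - e) (by linarith) (by linarith) (by linarith) (by linarith)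
  have h' : (0:ℝ) < 1/64 := by norm_num
  refine lt_of_lt_of_le h' ?_
  rw [← sub_nonneg]
  refine le_of_le_of_eq h ?_
  ring

theorem pb5_pos (r e : ℝ) (h1 : 0 ≤ r) (h2 : r ≤ 19/50) (h3 : 0 ≤ e) (h4 : e ≤ 1/13) :
    0 < 1-1/2*(1-e)*(1+(r*((1-r/2)*(1+18/5*e)))) := by
  have key : ∀ u a v b : ℝ, 0 ≤ u → 0 ≤ a → 0 ≤ v → 0 ≤ b → 0 ≤ (105625/361)*a^2*b^2
      + (227500/361)*a^2*v^1*b^1
      + (121875/361)*a^2*v^2
      + (130975/361)*u^1*a^1*b^2
      + (278395/361)*u^1*a^1*v^1*b^1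
      + (149130/361)*u^1*a^1*v^2
      + (162409/1444)*u^2*b^2
      + (1688999/7220)*u^2*v^1*b^1
      + (226164/1805)*u^2*v^2 := by
    intro u a v b hu ha hv hb; positivity
  have h := key (r - 0) (19/50 - r) (e - 0) (1/13 - e) (by linarith) (by linarith) (by linarith) (by linarith)
  have h' : (0:ℝ) < 1/4 := by norm_num
  refine lt_of_lt_of_le h' ?_
  rw [← sub_nonneg]
  refine le_of_le_of_eq h ?_
  ring

end Pool.Agent.Helper52.LC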