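import Pool.Agent.Helper52.LC.IneqB

namespace Pool.Agent.Helper52.LC

/-- The explicit upper bound `1 + q` for `N p` is valid. -/
theorem qbar_valid (ε ρ q : ℝ) (hε0 : 0 ≤ ε) (hε : ε ≤ 1 / 11) (hρ0 : 0 ≤ ρ) (hρ1 : ρ ≤ 1)
    (hq : q = ρ * ((1 - ρ / 2) * (1 + 18 / 5 * ε))) :
    1 - ε + ρ - ρ ^ 2 / 2 ≤ (1 + q) * (1 - ε * (1 + q)) := by
  have ha : ρ * (1 - ρ / 2) ≤ 1 / 2 := by nlinarith [sq_nonneg (ρ - 1)]
  have ha0 : 0 ≤ ρ * (1 - ρ / 2) := mul_nonneg hρ0 (by linarith)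
  have h1 : 0 ≤ 1 + 18 / 5 * ε := by linarith
  have hq1 : q ≤ 1 / 2 * (1 + 18 / 5 * ε) := by
    rw [hq, ← mul_assoc]
    exact mul_le_mul_of_nonneg_right ha h1
  have hu : 0 ≤ 18 / 5 - 2 - 2 * (18 / 5) * ε - q * (1 + 18 / 5 * ε) := by
    have : q * (1 + 18 / 5 * ε) ≤ 1 / 2 * (1 + 18 / 5 * ε) * (1 + 18 / 5 * ε) :=
      mul_le_mul_of_nonneg_right hq1 h1
    nlinarith
  have key : (1 + q) * (1 - ε * (1 + q)) - (1 - ε + ρ - ρ ^ 2 / 2)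
      = (ρ * (1 - ρ / 2)) * ε * (18 / 5 - 2 - 2 * (18 / 5) * ε - q * (1 + 18 / 5 * ε)) := by
    rw [hq]; ring
  have : 0 ≤ (ρ * (1 - ρ / 2)) * ε * (18 / 5 - 2 - 2 * (18 / 5) * ε - q * (1 + 18 / 5 * ε)) :=
    mul_nonneg (mul_nonneg ha0 hε0) hu
  linarith

theorem inv_convex (a b th : ℝ) (ha : 0 < a) (hb : 0 < b) (h0 : 0 ≤ th) (h1 : th ≤ 1) :
    1 / ((1 - th) * a + th * b) ≤ (1 - th) * (1 / a) + th * (1 / b) := by
  have hm : 0 < (1 - th) * a + th * b := by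
    rcases h0.eq_or_lt with h | h
    · subst h; simpa using ha
    · have : 0 ≤ (1 - th) * a := mul_nonneg (by linarith) ha.le
      have : 0 < th * b := mul_pos h hb
      linarith
  rw [div_le_iff₀ hm]
  have h2 : ((1 - th) * (1 / a) + th * (1 / b)) * ((1 - th) * a + th * b)
      = 1 + th * (1 - th) * ((a - b) ^ 2 / (a * b)) := by
    field_simp
    ring
  rw [h2]
  have : 0 ≤ th * (1 - th) * ((a - b) ^ 2 / (a * b)) := by
    apply mul_nonneg (mul_nonneg h0 (by linarith)); positivity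
  linarith

/-- Inequality used for the extra pair of light connectors (odd `t ≥ 7`). -/
theorem Bg (ε ρ q y ρs : ℝ) (hε0 : 0 ≤ ε) (hε : ε ≤ 1 / 13) (hρ0 : 0 < ρ) (hρ1 : ρ ≤ 1)
    (hq : q = ρ * ((1 - ρ / 2) * (1 + 18 / 5 * ε))) (hy1 : 1 - ρ ≤ y) (hy2 : y ≤ 1 + q)
    (h1 : ρ ≤ ρs) (h2 : 1 - 1 / 2 * (1 - ε) * y ≤ ρs) :
    1 / 4 * (1 + 3 * ε) * y + ε * (2 - 2 * ε + 2 * ρ - ρ ^ 2 - 2 * y * (1 - ε * y)) / ρ
      + ε * (2 - 2 * ε + 2 * ρ - ρ ^ 2) / ρs < 1 := by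
  have hε' : ε ≤ 1 / 11 := by linarith
  have hq0 : 0 ≤ q := by
    rw [hq]; exact mul_nonneg hρ0.le (mul_nonneg (by linarith) (by linarith))
  have hval := qbar_valid ε ρ q hε0 hε' hρ0.le hρ1 hq
  have hden : 0 < q + ρ := by linarith
  obtain ⟨th, hth⟩ : ∃ th, th = (y - (1 - ρ)) / (q + ρ) := ⟨_, rfl⟩
  have hth0 : 0 ≤ th := by rw [hth]; exact div_nonneg (by linarith) hden.le
  have hth1 : th ≤ 1 := by rw [hth, div_le_one hden]; linarith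
  have hthy : th * (q + ρ) = y - (1 - ρ) := by rw [hth]; field_simp
  have hy : y = (1 - th) * (1 - ρ) + th * (1 + q) := by nlinarith
  obtain ⟨K, hK⟩ : ∃ K, K = ε * (2 - 2 * ε + 2 * ρ - ρ ^ 2) := ⟨_, rfl⟩
  have hK0 : 0 ≤ K := by
    rw [hK]; apply mul_nonneg hε0; nlinarith
  obtain ⟨w, hw⟩ : ∃ w, w = 1 / ρ := ⟨_, rfl⟩
  have hw0 : 0 < w := by rw [hw]; positivity
  have hwρ : w * ρ = 1 := by rw [hw]; field_simp
  obtain ⟨α1, hα1⟩ : ∃ a, a = 1 - 1 / 4 * (1 + 3 * ε) * (1 - ρ) - ε * (4 - 4 * ε - (1 - 2 * ε) * ρ) :=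
    ⟨_, rfl⟩
  obtain ⟨α2, hα2⟩ : ∃ a, a = 1 - 1 / 4 * (1 + 3 * ε) * (1 + q) := ⟨_, rfl⟩
  -- main concavity estimate
  have hmain : 1 / 4 * (1 + 3 * ε) * y
      + ε * (2 - 2 * ε + 2 * ρ - ρ ^ 2 - 2 * y * (1 - ε * y)) / ρ
      ≤ 1 - ((1 - th) * α1 + th * α2) := by
    have e0 : ε * (2 - 2 * ε + 2 * ρ - ρ ^ 2 - 2 * y * (1 - ε * y)) / ρ
        = w * (ε * (2 - 2 * ε + 2 * ρ - ρ ^ 2 - 2 * y * (1 - ε * y))) := by
      rw [hw]; ring
    rw [e0]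
    -- convexity of the quadratic
    have e1 : ε * (2 - 2 * ε + 2 * ρ - ρ ^ 2 - 2 * y * (1 - ε * y))
        = (1 - th) * (ε * (2 - 2 * ε + 2 * ρ - ρ ^ 2 - 2 * (1 - ρ) * (1 - ε * (1 - ρ))))
          + th * (ε * (2 - 2 * ε + 2 * ρ - ρ ^ 2 - 2 * (1 + q) * (1 - ε * (1 + q))))
          - 2 * ε ^ 2 * (th * (1 - th) * (q + ρ) ^ 2) := by
      rw [hy]; ring
    have e2 : ε * (2 - 2 * ε + 2 * ρ - ρ ^ 2 - 2 * (1 + q) * (1 - ε * (1 + q))) ≤ 0 := by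
      apply mul_nonpos_of_nonneg_of_nonpos hε0
      nlinarith
    have e3 : ε * (2 - 2 * ε + 2 * ρ - ρ ^ 2 - 2 * (1 - ρ) * (1 - ε * (1 - ρ)))
        = ρ * (ε * (4 - 4 * ε - (1 - 2 * ε) * ρ)) := by ring
    have e4 : 0 ≤ 2 * ε ^ 2 * (th * (1 - th) * (q + ρ) ^ 2) := by
      have : 0 ≤ th * (1 - th) := mul_nonneg hth0 (by linarith)
      positivity
    have e5 : ε * (2 - 2 * ε + 2 * ρ - ρ ^ 2 - 2 * y * (1 - ε * y))
        ≤ (1 - th) * (ρ * (ε * (4 - 4 * ε - (1 - 2 * ε) * ρ))) := by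
      rw [e1, e3]
      have := mul_nonpos_of_nonneg_of_nonpos hth0 e2
      linarith
    have e6 : w * (ε * (2 - 2 * ε + 2 * ρ - ρ ^ 2 - 2 * y * (1 - ε * y)))
        ≤ w * ((1 - th) * (ρ * (ε * (4 - 4 * ε - (1 - 2 * ε) * ρ)))) :=
      mul_le_mul_of_nonneg_left e5 hw0.le
    have e7 : w * ((1 - th) * (ρ * (ε * (4 - 4 * ε - (1 - 2 * ε) * ρ))))
        = (1 - th) * (ε * (4 - 4 * ε - (1 - 2 * ε) * ρ)) := by
      linear_combination ((1 - th) * (ε * (4 - 4 * ε - (1 - 2 * ε) * ρ))) * hwρ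
    rw [e7] at e6
    have e8 : 1 / 4 * (1 + 3 * ε) * y
        = (1 - th) * (1 / 4 * (1 + 3 * ε) * (1 - ρ)) + th * (1 / 4 * (1 + 3 * ε) * (1 + q)) := by
      rw [hy]; ring
    rw [hα1, hα2, e8]
    linarith
  have hρs : 0 < ρs := lt_of_lt_of_le hρ0 h1
  rw [← hK]
  -- it suffices to bound K / ρs
  suffices hs : K / ρs < (1 - th) * α1 + th * α2 by linarith
  rcases le_total ρ (19 / 50) with hr | hr
  · have c1 := pb1_pos ρ ε hρ0.le hr hε0 hε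
    have c2 := pb2_pos ρ ε hρ0.le hr hε0 hε
    have c5 := pb5_pos ρ ε hρ0.le hr hε0 hε
    rw [← hq] at c2 c5
    obtain ⟨L1, hL1⟩ : ∃ a, a = 1 - 1 / 2 * (1 - ε) * (1 - ρ) := ⟨_, rfl⟩
    obtain ⟨L2, hL2⟩ : ∃ a, a = 1 - 1 / 2 * (1 - ε) * (1 + q) := ⟨_, rfl⟩
    rw [← hL1, ← hα1, ← hK] at c1
    rw [← hL2, ← hα2, ← hK] at c2
    rw [← hL2] at c5
    have hL1p : 0 < L1 := by rw [hL1]; nlinarith
    have hL : (1 - th) * L1 + th * L2 = 1 - 1 / 2 * (1 - ε) * y := by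
      rw [hL1, hL2, hy]; ring
    have hLp : 0 < (1 - th) * L1 + th * L2 := by
      rcases hth0.eq_or_lt with h | h
      · rw [← h]; simpa using hL1p
      · have : 0 ≤ (1 - th) * L1 := mul_nonneg (by linarith) hL1p.le
        have : 0 < th * L2 := mul_pos h c5
        linarith
    have h3 : 1 / ρs ≤ (1 - th) * (1 / L1) + th * (1 / L2) := by
      refine le_trans ?_ (inv_convex L1 L2 th hL1p c5 hth0 hth1)
      apply one_div_le_one_div_of_le hLp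
      rw [hL]; exact h2
    have h4 : K / ρs ≤ (1 - th) * (K / L1) + th * (K / L2) := by
      have : K / ρs = K * (1 / ρs) := by ring
      rw [this]
      calc K * (1 / ρs) ≤ K * ((1 - th) * (1 / L1) + th * (1 / L2)) :=
            mul_le_mul_of_nonneg_left h3 hK0
        _ = _ := by ring
    have h5 : K / L1 < α1 := by rw [div_lt_iff₀ hL1p]; linarith
    have h6 : K / L2 < α2 := by rw [div_lt_iff₀ c5]; linarith
    rcases hth1.eq_or_lt with h | h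
    · subst h; simp at h4 ⊢; linarith
    · have := mul_lt_mul_of_pos_left h5 (show 0 < 1 - th by linarith)
      have := mul_le_mul_of_nonneg_left h6.le hth0
      linarith
  · have c3 := pb3_pos ρ ε hr hρ1 hε0 hε
    have c4 := pb4_pos ρ ε hr hρ1 hε0 hε
    rw [← hq] at c4
    rw [← hα1, ← hK] at c3
    rw [← hα2, ← hK] at c4
    have h4 : K / ρs ≤ K / ρ := div_le_div_of_nonneg_left hK0 hρ0 h1
    have h5 : K / ρ < α1 := by rw [div_lt_iff₀ hρ0]; linarith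
    have h6 : K / ρ < α2 := by rw [div_lt_iff₀ hρ0]; linarith
    rcases hth1.eq_or_lt with h | h
    · subst h; simp; linarith
    · have := mul_lt_mul_of_pos_left h5 (show 0 < 1 - th by linarith)
      have := mul_le_mul_of_nonneg_left h6.le hth0
      have e : K / ρ = (1 - th) * (K / ρ) + th * (K / ρ) := by ring
      linarith

end Pool.Agent.Helper52.LC
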