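import Mathlib

namespace Pool.Agent.Helper52.LC

theorem c5_cert1 (U w : ℝ) (h1 : 0 ≤ U) (h2 : U ≤ 1/2) (h3 : 0 ≤ w) (h4 : w ≤ 1) :
    0 ≤ (1-(1/2*U+1/6*U*w))*(1-3/2*(1/2*U+1/6*U*w))*(1-U) - (25/81-(U-(1/2*U+1/6*U*w))^2/4-1/2*(1/2*U+1/6*U*w)-(1/2*U+1/6*U*w)^2/8)*(2-U-3/2*(1/2*U+1/6*U*w)) - 1/200*(1-U) := by
  have key : ∀ u a v b : ℝ, 0 ≤ u → 0 ≤ a → 0 ≤ v → 0 ≤ b → 0 ≤ (6119/2025)*a^3*b^3
      + (6119/675)*a^3*v^1*b^2
      + (6119/675)*a^3*v^2*b^1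
      + (6119/2025)*a^3*v^3
      + (3439/810)*u^1*a^2*b^3
      + (9757/810)*u^1*a^2*v^1*b^2
      + (9197/810)*u^1*a^2*v^2*b^1
      + (2879/810)*u^1*a^2*v^3
      + (17627/8100)*u^2*a^1*b^3
      + (48431/8100)*u^2*a^1*v^1*b^2
      + (11164/2025)*u^2*a^1*v^2*b^1
      + (3463/2025)*u^2*a^1*v^3
      + (11899/28800)*u^3*b^3
      + (37081/32400)*u^3*v^1*b^2
      + (34931/32400)*u^3*v^2*b^1
      + (697/2025)*u^3*v^3 := by
    intro u a v b hu ha hv hb; positivity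
  have h := key (U - 0) (1/2 - U) (w - 0) (1 - w) (by linarith) (by linarith) (by linarith) (by linarith)
  refine le_of_le_of_eq h ?_
  ring

theorem c5_cert2 (U w : ℝ) (h1 : 1/2 ≤ U) (h2 : U ≤ 1) (h3 : 0 ≤ w) (h4 : w ≤ 1) :
    0 ≤ (1-(1/2*U+1/6*U*w))*(1-3/2*(1/2*U+1/6*U*w))*(1-U) - (25/81-(U-(1/2*U+1/6*U*w))^2/4-1/2*(1/2*U+1/6*U*w)-(1/2*U+1/6*U*w)^2/8)*(2-U-3/2*(1/2*U+1/6*U*w)) - 1/200*(1-U) := by
  have key : ∀ u a v b : ℝ, 0 ≤ u → 0 ≤ a → 0 ≤ v → 0 ≤ b → 0 ≤ (11899/28800)*a^3*b^3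
      + (37081/32400)*a^3*v^1*b^2
      + (34931/32400)*a^3*v^2*b^1
      + (697/2025)*a^3*v^3
      + (39241/129600)*u^1*a^2*b^3
      + (14381/16200)*u^1*a^2*v^1*b^2
      + (15481/16200)*u^1*a^2*v^2*b^1
      + (719/2025)*u^1*a^2*v^3
      + (32329/64800)*u^2*a^1*b^3
      + (15089/8100)*u^2*a^1*v^1*b^2
      + (18139/8100)*u^2*a^1*v^2*b^1
      + (3419/4050)*u^2*a^1*v^3
      + (91/1296)*u^3*b^3
      + (43/162)*u^3*v^1*b^2
      + (35/162)*u^3*v^2*b^1 := by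
    intro u a v b hu ha hv hb; positivity
  have h := key (U - 1/2) (1 - U) (w - 0) (1 - w) (by linarith) (by linarith) (by linarith) (by linarith)
  refine le_of_le_of_eq h ?_
  ring


theorem C5x (a b c d V U Q : ℝ) (hd : 0 ≤ d) (hdc : d ≤ c) (hcb : c ≤ b) (hba : b ≤ a)
    (hV1 : a+b+c+d ≤ V) (hV : V ≤ a+b+c+3*d) (hUV : V ≤ U) (hU : U < 1)
    (hU2 : U ≤ V + (V-a-b-c-d)) (hQ : a^2+b^2+c^2+d^2+(U-a-b-c-d)^2/4 ≤ Q)
    (hm : 0 ≤ 25/81 - Q - 2*a*(1-a)) :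
    a+b+c+d + (25/81 - Q - 2*a*(1-a))/(1-U) + (25/81 - Q - 2*b*(1-b))/(1-V) < 1 := by
  have hU0 : 0 < 1 - U := by linarith
  have hV0 : 0 < 1 - V := by linarith
  obtain ⟨A, hA⟩ : ∃ A, A = 1 / (1 - U) := ⟨_, rfl⟩
  obtain ⟨B, hB⟩ : ∃ B, B = 1 / (1 - V) := ⟨_, rfl⟩
  have hAp : 0 < A := by rw [hA]; positivity
  have hBp : 0 < B := by rw [hB]; positivity
  have hBA : B ≤ A := by rw [hA, hB]; exact one_div_le_one_div_of_le hU0 (by linarith)
  obtain ⟨Y, hY⟩ : ∃ Y, Y = a + b + c + d := ⟨_, rfl⟩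
  obtain ⟨m, hmm⟩ : ∃ m, m = 25/81 - (U-Y)^2/4 - 1/2*Y - Y^2/8 := ⟨_, rfl⟩
  have hYU : Y ≤ U := by rw [hY]; linarith
  have hY1 : Y < 1 := by linarith
  have hYp : 0 ≤ Y := by rw [hY]; linarith
  have ha1 : a < 1 := by linarith
  have ha2 : a ≤ 1/5 := by
    by_contra hcon
    push Not at hcon
    have : a^2 ≤ Q := by linarith [sq_nonneg b, sq_nonneg c, sq_nonneg d, sq_nonneg (U-a-b-c-d)]
    have h2 : 0 < (a - 1/5) * (9/5 - a) := mul_pos (by linarith) (by linarith)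
    have h3 : (a - 1/5) * (9/5 - a) = 2 * a - a^2 - 9/25 := by ring
    have h4 : 2*a*(1-a) = 2*a - 2*a^2 := by ring
    linarith
  -- symmetrisation
  have hsym : (25/81 - Q - 2*a*(1-a))/(1-U) + (25/81 - Q - 2*b*(1-b))/(1-V) ≤ m * (A + B) := by
    have e1 : (25/81 - Q - 2*a*(1-a))/(1-U) = (25/81 - Q - 2*a*(1-a)) * A := by rw [hA]; ring
    have e2 : (25/81 - Q - 2*b*(1-b))/(1-V) = (25/81 - Q - 2*b*(1-b)) * B := by rw [hB]; ring
    rw [e1, e2]
    obtain ⟨y, hy⟩ : ∃ y, y = Y / 4 := ⟨_, rfl⟩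
    obtain ⟨p, hp⟩ : ∃ p, p = a - y := ⟨_, rfl⟩
    obtain ⟨q, hq⟩ : ∃ q, q = b - y := ⟨_, rfl⟩
    have hY4 : Y = 4 * y := by rw [hy]; ring
    have ha' : a = y + p := by rw [hp]; ring
    have hb' : b = y + q := by rw [hq]; ring
    have hcd : c + d = 2 * y - p - q := by linarith
    have hcd2 : (2 * y - p - q)^2 / 2 ≤ c^2 + d^2 := by
      rw [← hcd]; nlinarith [sq_nonneg (c - d)]
    have e3 : (U - a - b - c - d)^2 = (U-Y)^2 := by rw [hY]; ring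
    -- lower bound for Q
    have hQ2 : a^2 + b^2 + (2*y-p-q)^2/2 + (U-Y)^2/4 ≤ Q := by
      rw [e3] at hQ; linarith
    have h1 : (25/81 - Q - 2*a*(1-a)) * A
        ≤ (25/81 - (a^2+b^2+(2*y-p-q)^2/2+(U-Y)^2/4) - 2*a*(1-a)) * A := by
      apply mul_le_mul_of_nonneg_right _ hAp.le
      linarith
    have h2 : (25/81 - Q - 2*b*(1-b)) * B
        ≤ (25/81 - (a^2+b^2+(2*y-p-q)^2/2+(U-Y)^2/4) - 2*b*(1-b)) * B := by
      apply mul_le_mul_of_nonneg_right _ hBp.le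
      linarith
    have h3 : m * (A + B) - ((25/81 - (a^2+b^2+(2*y-p-q)^2/2+(U-Y)^2/4) - 2*a*(1-a)) * A
        + (25/81 - (a^2+b^2+(2*y-p-q)^2/2+(U-Y)^2/4) - 2*b*(1-b)) * B)
        = A * (2*p*(1-2*y) + (p+q)*(3*q-p)/2) + B * (2*q*(1-2*y) + (p+q)*(3*p-q)/2) := by
      rw [hmm, ha', hb', hY4]; ring
    have hpq : q ≤ p := by linarith
    have hpq3 : 0 ≤ p + 3 * q := by
      -- c + d ≤ 2 b
      linarith
    have hp0 : 0 ≤ p := by linarith
    have hy5 : y ≤ 1/5 := by linarith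
    have hy0 : 0 ≤ y := by rw [hy]; linarith
    have hp5 : p ≤ 1/5 := by linarith
    have h4 : 0 ≤ A * (2*p*(1-2*y) + (p+q)*(3*q-p)/2) + B * (2*q*(1-2*y) + (p+q)*(3*p-q)/2) := by
      have hpq' : 0 ≤ p + q := by linarith
      rcases le_or_gt 0 q with h0 | h0
      · have h5 : 0 ≤ 2*p*(1-2*y) + (p+q)*(3*q-p)/2 := by
          nlinarith [mul_nonneg hp0 h0, mul_nonneg hp0 (sub_nonneg.mpr hp5), mul_nonneg h0 h0,
            mul_nonneg hp0 (sub_nonneg.mpr hy5), mul_nonneg hpq' h0]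
        have h6 : 0 ≤ 2*q*(1-2*y) + (p+q)*(3*p-q)/2 := by
          have : 0 ≤ (p+q)*(3*p-q) := mul_nonneg hpq' (by linarith)
          have : 0 ≤ q*(1-2*y) := mul_nonneg h0 (by linarith)
          linarith
        exact add_nonneg (mul_nonneg hAp.le h5) (mul_nonneg hBp.le h6)
      · -- A-term ≥ 2p(1-2y) - p^2
        have h5 : 2*p*(1-2*y) - p^2 ≤ 2*p*(1-2*y) + (p+q)*(3*q-p)/2 := by
          nlinarith [mul_nonneg hp0 hpq3, mul_nonneg hpq' hpq3]
        have h6 : 0 ≤ 2*p*(1-2*y) - p^2 := by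
          have : 0 ≤ p * (2*(1-2*y) - p) := mul_nonneg hp0 (by linarith)
          linarith
        have h7 : B * (2*p*(1-2*y) - p^2) ≤ A * (2*p*(1-2*y) + (p+q)*(3*q-p)/2) :=
          mul_le_mul hBA h5 h6 hAp.le
        have h8 : 0 ≤ (2*p*(1-2*y) - p^2) + (2*q*(1-2*y) + (p+q)*(3*p-q)/2) := by
          have h9 : 0 ≤ (p+q)*(3*p-q) := mul_nonneg hpq' (by linarith)
          have h10 : 0 ≤ (p + 3*q) * (1-2*y) := mul_nonneg hpq3 (by linarith)
          have h11 : 0 ≤ p * (4/3*(1-2*y) - p) := mul_nonneg hp0 (by linarith)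
          linarith
        have h12 := mul_nonneg hBp.le h8
        linarith
    linarith
  suffices hs : m * (A + B) < 1 - Y by
    rw [hY] at hs; linarith
  rcases le_or_gt m 0 with hm0 | hm0
  · have : m * (A + B) ≤ 0 := mul_nonpos_of_nonpos_of_nonneg hm0 (by linarith)
    linarith
  · have hV32 : V ≤ 3/2 * Y := by rw [hY]; linarith
    have hU2Y : U ≤ 2 * Y := by rw [hY] at hV32 ⊢; linarith
    rcases le_total U (3/2 * Y) with hc3 | hc3
    · have h1 : m * (A + B) ≤ m * (2 * A) := mul_le_mul_of_nonneg_left (by linarith) hm0.le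
      have h2 : m * (2 * A) < 1 - Y := by
        have : m * (2 * A) = 2 * m / (1 - U) := by rw [hA]; ring
        rw [this, div_lt_iff₀ hU0, hmm]
        have hw0 : 0 ≤ U - Y := by linarith
        have hw1 : U - Y ≤ 1/2 * Y := by linarith
        nlinarith [sq_nonneg (Y - 2/5), mul_nonneg hw0 (sub_nonneg.mpr hw1),
          mul_nonneg hYp (sub_nonneg.mpr hw1), sq_nonneg (U - Y), mul_nonneg hw0 hYp]
      linarith
    · have h32 : 0 < 1 - 3/2 * Y := by linarith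
      have hB' : B ≤ 1 / (1 - 3/2 * Y) := by
        rw [hB]; exact one_div_le_one_div_of_le h32 (by linarith)
      have hG : m * (2 - U - 3/2*Y) < (1 - Y) * (1 - 3/2*Y) * (1 - U) := by
        rcases eq_or_lt_of_le hYp with h0 | h0
        · have : U = 0 := by linarith
          rw [hmm, ← h0, this]; norm_num
        · have hUp : 0 < U := lt_of_lt_of_le h0 hYU
          obtain ⟨w, hw⟩ : ∃ w, w = (Y - 1/2*U) / (1/6*U) := ⟨_, rfl⟩
          have hw1 : 0 ≤ w := by rw [hw]; apply div_nonneg <;> linarith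
          have hw2 : w ≤ 1 := by rw [hw, div_le_one (by linarith)]; linarith
          have hYw : Y = 1/2*U + 1/6*U*w := by rw [hw]; field_simp; ring
          have hUU : 0 < 1/200*(1-U) := by linarith
          rcases le_total U (1/2) with hh | hh
          · have := c5_cert1 U w hUp.le hh hw1 hw2
            rw [← hYw, ← hmm] at this
            linarith
          · have := c5_cert2 U w hh hU.le hw1 hw2
            rw [← hYw, ← hmm] at this
            linarith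
      have h1 : m * (A + B) ≤ m * (1 / (1 - U) + 1 / (1 - 3/2*Y)) := by
        apply mul_le_mul_of_nonneg_left _ hm0.le
        rw [← hA]; linarith
      have h2 : m * (1 / (1 - U) + 1 / (1 - 3/2*Y)) = m * (2 - U - 3/2*Y) / ((1 - 3/2*Y) * (1 - U)) := by
        have hD : ∀ C D : ℝ, 0 < C → 0 < D → m * (1 / C + 1 / D) = m * (C + D) / (D * C) := by
          intro C D hC hD
          field_simp
          ring
        rw [hD _ _ hU0 h32]
        congr 1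
        ring
      have h3 : m * (2 - U - 3/2*Y) / ((1 - 3/2*Y) * (1 - U)) < 1 - Y := by
        rw [div_lt_iff₀ (mul_pos h32 hU0)]
        linarith
      linarith

end Pool.Agent.Helper52.LC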