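import Mathlib

namespace Pool.Agent.Helper52.LC

theorem f1_cert1 (U w : ℝ) (h1 : 0 ≤ U) (h2 : U ≤ 1/2) (h3 : 0 ≤ w) (h4 : w ≤ 1) :
    0 ≤ (1-(2/7*U+4/35*U*w))*(1-5/2*(2/7*U+4/35*U*w))*(1-U) - (19/49-(2/7*U+4/35*U*w)-(U-(2/7*U+4/35*U*w))^2/5)*(2-U-5/2*(2/7*U+4/35*U*w)) - 1/200*(1-U) := by
  have key : ∀ u a v b : ℝ, 0 ≤ u → 0 ≤ a → 0 ≤ v → 0 ≤ b → 0 ≤ (2151/1225)*a^3*b^3
      + (6453/1225)*a^3*v^1*b^2
      + (6453/1225)*a^3*v^2*b^1
      + (2151/1225)*a^3*v^3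
      + (7657/3430)*u^1*a^2*b^3
      + (22139/3430)*u^1*a^2*v^1*b^2
      + (21307/3430)*u^1*a^2*v^2*b^1
      + (195/98)*u^1*a^2*v^3
      + (8864/8575)*u^2*a^1*b^3
      + (26212/8575)*u^2*a^1*v^1*b^2
      + (129608/42875)*u^2*a^1*v^2*b^1
      + (6124/6125)*u^2*a^1*v^3
      + (3057/17150)*u^3*b^3
      + (10231/17150)*u^3*v^1*b^2
      + (54967/85750)*u^3*v^2*b^1
      + (2719/12250)*u^3*v^3 := by
    intro u a v b hu ha hv hb; positivity
  have h := key (U - 0) (1/2 - U) (w - 0) (1 - w) (by linarith) (by linarith) (by linarith) (by linarith)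
  refine le_of_le_of_eq h ?_
  ring

theorem f1_cert2 (U w : ℝ) (h1 : 1/2 ≤ U) (h2 : U ≤ 1) (h3 : 0 ≤ w) (h4 : w ≤ 1) :
    0 ≤ (1-(2/7*U+4/35*U*w))*(1-5/2*(2/7*U+4/35*U*w))*(1-U) - (19/49-(2/7*U+4/35*U*w)-(U-(2/7*U+4/35*U*w))^2/5)*(2-U-5/2*(2/7*U+4/35*U*w)) - 1/200*(1-U) := by
  have key : ∀ u a v b : ℝ, 0 ≤ u → 0 ≤ a → 0 ≤ v → 0 ≤ b → 0 ≤ (3057/17150)*a^3*b^3
      + (10231/17150)*a^3*v^1*b^2
      + (54967/85750)*a^3*v^2*b^1
      + (2719/12250)*a^3*v^3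
      + (307/8575)*u^1*a^2*b^3
      + (4481/8575)*u^1*a^2*v^1*b^2
      + (35293/42875)*u^1*a^2*v^2*b^1
      + (2033/6125)*u^1*a^2*v^3
      + (4057/17150)*u^2*a^1*b^3
      + (23771/17150)*u^2*a^1*v^1*b^2
      + (31083/17150)*u^2*a^1*v^2*b^1
      + (8011/12250)*u^2*a^1*v^3
      + (64/343)*u^3*v^1*b^2
      + (8256/42875)*u^3*v^2*b^1 := by
    intro u a v b hu ha hv hb; positivity
  have h := key (U - 1/2) (1 - U) (w - 0) (1 - w) (by linarith) (by linarith) (by linarith) (by linarith)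
  refine le_of_le_of_eq h ?_
  ring


theorem F1x (a b V U Q : ℝ) (hb : 0 ≤ b) (hba : b ≤ a) (hV1 : a+b ≤ V) (hV : V ≤ a+4*b)
    (hUV : V ≤ U) (hU : U < 1) (hU2 : U ≤ V + (2/3)*(V-a-b)) (hQ : a^2+b^2+(U-a-b)^2/5 ≤ Q)
    (hm : 0 ≤ 19/49 - Q - 2*a*(1-a)) :
    a + b + (19/49 - Q - 2*a*(1-a))/(1-U) + (19/49 - Q - 2*b*(1-b))/(1-V) < 1 := by
  have hU0 : 0 < 1 - U := by linarith
  have hV0 : 0 < 1 - V := by linarith
  obtain ⟨A, hA⟩ : ∃ A, A = 1 / (1 - U) := ⟨_, rfl⟩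
  obtain ⟨B, hB⟩ : ∃ B, B = 1 / (1 - V) := ⟨_, rfl⟩
  have hAp : 0 < A := by rw [hA]; positivity
  have hBp : 0 < B := by rw [hB]; positivity
  have hBA : B ≤ A := by rw [hA, hB]; exact one_div_le_one_div_of_le hU0 (by linarith)
  obtain ⟨Y, hY⟩ : ∃ Y, Y = a + b := ⟨_, rfl⟩
  obtain ⟨m, hmm⟩ : ∃ m, m = 19/49 - Y - (U-Y)^2/5 := ⟨_, rfl⟩
  have hYU : Y ≤ U := by rw [hY]; linarith
  have hY1 : Y < 1 := by linarith
  have hYp : 0 ≤ Y := by rw [hY]; linarith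
  -- symmetrisation
  have hsym : (19/49 - Q - 2*a*(1-a))/(1-U) + (19/49 - Q - 2*b*(1-b))/(1-V) ≤ m * (A + B) := by
    have e1 : (19/49 - Q - 2*a*(1-a))/(1-U) = (19/49 - Q - 2*a*(1-a)) * A := by rw [hA]; ring
    have e2 : (19/49 - Q - 2*b*(1-b))/(1-V) = (19/49 - Q - 2*b*(1-b)) * B := by rw [hB]; ring
    rw [e1, e2]
    have h1 : (19/49 - Q - 2*a*(1-a)) * A
        ≤ (19/49 - (a^2+b^2+(U-Y)^2/5) - 2*a*(1-a)) * A := by
      apply mul_le_mul_of_nonneg_right _ hAp.le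
      have : (U - a - b)^2 = (U-Y)^2 := by rw [hY]; ring
      linarith
    have h2 : (19/49 - Q - 2*b*(1-b)) * B
        ≤ (19/49 - (a^2+b^2+(U-Y)^2/5) - 2*b*(1-b)) * B := by
      apply mul_le_mul_of_nonneg_right _ hBp.le
      have : (U - a - b)^2 = (U-Y)^2 := by rw [hY]; ring
      linarith
    have h3 : m * (A + B) - ((19/49 - (a^2+b^2+(U-Y)^2/5) - 2*a*(1-a)) * A
        + (19/49 - (a^2+b^2+(U-Y)^2/5) - 2*b*(1-b)) * B) = (a - b) * (1 - Y) * (A - B) := by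
      rw [hmm, hY]; ring
    have h4 : 0 ≤ (a - b) * (1 - Y) * (A - B) :=
      mul_nonneg (mul_nonneg (by linarith) (by linarith)) (by linarith)
    linarith
  suffices hs : m * (A + B) < 1 - Y by
    rw [hY] at hs; linarith
  rcases le_or_gt m 0 with hm0 | hm0
  · have : m * (A + B) ≤ 0 := mul_nonpos_of_nonpos_of_nonneg hm0 (by linarith)
    linarith
  · have hV52 : V ≤ 5/2 * Y := by rw [hY]; linarith
    have hU72 : U ≤ 7/2 * Y := by rw [hY] at hV52 ⊢; linarith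
    rcases le_total U (5/2 * Y) with hc | hc
    · -- B ≤ A = 1/(1-U)
      have h1 : m * (A + B) ≤ m * (2 * A) := mul_le_mul_of_nonneg_left (by linarith) hm0.le
      have h2 : m * (2 * A) < 1 - Y := by
        have : m * (2 * A) = 2 * m / (1 - U) := by rw [hA]; ring
        rw [this, div_lt_iff₀ hU0, hmm]
        have hw0 : 0 ≤ U - Y := by linarith
        have hw1 : U - Y ≤ 3/2 * Y := by linarith
        have h5 : (2/3 * (U - Y))^2 ≤ Y^2 := by
          apply pow_le_pow_left₀ (by linarith); linarith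
        have h6 : 2/3 * (U-Y) * (U-Y) ≤ Y * (U - Y) := mul_le_mul_of_nonneg_right (by linarith) hw0
        nlinarith [sq_nonneg (U - Y - 33/100)]
      linarith
    · have h52 : 0 < 1 - 5/2 * Y := by linarith
      have hB' : B ≤ 1 / (1 - 5/2 * Y) := by
        rw [hB]; exact one_div_le_one_div_of_le h52 (by linarith)
      have hG : m * (2 - U - 5/2*Y) < (1 - Y) * (1 - 5/2*Y) * (1 - U) := by
        rcases eq_or_lt_of_le hYp with h0 | h0
        · -- Y = 0, then U = 0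
          have : U = 0 := by nlinarith
          rw [hmm, ← h0, this]; norm_num
        · have hUp : 0 < U := lt_of_lt_of_le h0 hYU
          obtain ⟨w, hw⟩ : ∃ w, w = (Y - 2/7*U) / (4/35*U) := ⟨_, rfl⟩
          have hw1 : 0 ≤ w := by rw [hw]; apply div_nonneg <;> linarith
          have hw2 : w ≤ 1 := by rw [hw, div_le_one (by linarith)]; linarith
          have hYw : Y = 2/7*U + 4/35*U*w := by rw [hw]; field_simp; ring
          have hUU : 0 < 1/200*(1-U) := by linarith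
          rcases le_total U (1/2) with hh | hh
          · have := f1_cert1 U w hUp.le hh hw1 hw2
            rw [← hYw, ← hmm] at this
            linarith
          · have := f1_cert2 U w hh hU.le hw1 hw2
            rw [← hYw, ← hmm] at this
            linarith
      have h1 : m * (A + B) ≤ m * (1 / (1 - U) + 1 / (1 - 5/2*Y)) := by
        apply mul_le_mul_of_nonneg_left _ hm0.le
        rw [← hA]; linarith
      have h2 : m * (1 / (1 - U) + 1 / (1 - 5/2*Y)) = m * (2 - U - 5/2*Y) / ((1 - 5/2*Y) * (1 - U)) := by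
        have hD : ∀ C D : ℝ, 0 < C → 0 < D → m * (1 / C + 1 / D) = m * (C + D) / (D * C) := by
          intro C D hC hD
          field_simp
          ring
        rw [hD _ _ hU0 h52]
        congr 1
        ring
      have h3 : m * (2 - U - 5/2*Y) / ((1 - 5/2*Y) * (1 - U)) < 1 - Y := by
        rw [div_lt_iff₀ (mul_pos h52 hU0)]
        linarith
      linarith

end Pool.Agent.Helper52.LC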