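import Mathlib

namespace Pool.Agent.Helper52.LC

theorem f2_cert1 (U w : ℝ) (h1 : 0 ≤ U) (h2 : U ≤ 1/2) (h3 : 0 ≤ w) (h4 : w ≤ 1) :
    0 ≤ (1-(1/2*U+1/4*U*w))*(1-4/3*(1/2*U+1/4*U*w))*(1-U) - (19/49-(U-(1/2*U+1/4*U*w))^2/3-2/3*(1/2*U+1/4*U*w)-(1/2*U+1/4*U*w)^2/9)*(2-U-4/3*(1/2*U+1/4*U*w)) - 1/200*(1-U) := by
  have key : ∀ u a v b : ℝ, 0 ≤ u → 0 ≤ a → 0 ≤ v → 0 ≤ b → 0 ≤ (2151/1225)*a^3*b^3
      + (6453/1225)*a^3*v^1*b^2
      + (6453/1225)*a^3*v^2*b^1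
      + (2151/1225)*a^3*v^3
      + (2753/1470)*u^1*a^2*b^3
      + (7549/1470)*u^1*a^2*v^1*b^2
      + (977/210)*u^1*a^2*v^2*b^1
      + (681/490)*u^1*a^2*v^3
      + (2981/3675)*u^2*a^1*b^3
      + (5637/2450)*u^2*a^1*v^1*b^2
      + (17161/7350)*u^2*a^1*v^2*b^1
      + (3106/3675)*u^2*a^1*v^3
      + (1661/9450)*u^3*b^3
      + (4409/7350)*u^3*v^1*b^2
      + (8026/11025)*u^3*v^2*b^1
      + (4331/14700)*u^3*v^3 := by
    intro u a v b hu ha hv hb; positivity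
  have h := key (U - 0) (1/2 - U) (w - 0) (1 - w) (by linarith) (by linarith) (by linarith) (by linarith)
  refine le_of_le_of_eq h ?_
  ring

theorem f2_cert2 (U w : ℝ) (h1 : 1/2 ≤ U) (h2 : U ≤ 1) (h3 : 0 ≤ w) (h4 : w ≤ 1) :
    0 ≤ (1-(1/2*U+1/4*U*w))*(1-4/3*(1/2*U+1/4*U*w))*(1-U) - (19/49-(U-(1/2*U+1/4*U*w))^2/3-2/3*(1/2*U+1/4*U*w)-(1/2*U+1/4*U*w)^2/9)*(2-U-4/3*(1/2*U+1/4*U*w)) - 1/200*(1-U) := by
  have key : ∀ u a v b : ℝ, 0 ≤ u → 0 ≤ a → 0 ≤ v → 0 ≤ b → 0 ≤ (1661/9450)*a^3*b^3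
      + (4409/7350)*a^3*v^1*b^2
      + (8026/11025)*a^3*v^2*b^1
      + (4331/14700)*a^3*v^3
      + (2684/11025)*u^1*a^2*b^3
      + (3181/2450)*u^1*a^2*v^1*b^2
      + (4981/2450)*u^1*a^2*v^2*b^1
      + (6781/7350)*u^1*a^2*v^3
      + (16259/22050)*u^2*a^1*b^3
      + (3287/1050)*u^2*a^1*v^1*b^2
      + (29759/7350)*u^2*a^1*v^2*b^1
      + (11353/7350)*u^2*a^1*v^3
      + (200/1323)*u^3*b^3
      + (88/147)*u^3*v^1*b^2
      + (230/441)*u^3*v^2*b^1 := by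
    intro u a v b hu ha hv hb; positivity
  have h := key (U - 1/2) (1 - U) (w - 0) (1 - w) (by linarith) (by linarith) (by linarith) (by linarith)
  refine le_of_le_of_eq h ?_
  ring


theorem F2x (a b c V U Q : ℝ) (hc : 0 ≤ c) (hcb : c ≤ b) (hba : b ≤ a) (hV1 : a+b+c ≤ V)
    (hV : V ≤ a+b+2*c) (hUV : V ≤ U) (hU : U < 1) (hU2 : U ≤ V + 2*(V-a-b-c))
    (hQ : a^2+b^2+c^2+(U-a-b-c)^2/3 ≤ Q) (hm : 0 ≤ 19/49 - Q - 2*a*(1-a)) :
    a+b+c + (19/49 - Q - 2*a*(1-a))/(1-U) + (19/49 - Q - 2*b*(1-b))/(1-V) < 1 := by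
  have hU0 : 0 < 1 - U := by linarith
  have hV0 : 0 < 1 - V := by linarith
  obtain ⟨A, hA⟩ : ∃ A, A = 1 / (1 - U) := ⟨_, rfl⟩
  obtain ⟨B, hB⟩ : ∃ B, B = 1 / (1 - V) := ⟨_, rfl⟩
  have hAp : 0 < A := by rw [hA]; positivity
  have hBp : 0 < B := by rw [hB]; positivity
  have hBA : B ≤ A := by rw [hA, hB]; exact one_div_le_one_div_of_le hU0 (by linarith)
  obtain ⟨Y, hY⟩ : ∃ Y, Y = a + b + c := ⟨_, rfl⟩
  obtain ⟨m, hmm⟩ : ∃ m, m = 19/49 - (U-Y)^2/3 - 2/3*Y - Y^2/9 := ⟨_, rfl⟩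
  have hYU : Y ≤ U := by rw [hY]; linarith
  have hY1 : Y < 1 := by linarith
  have hYp : 0 ≤ Y := by rw [hY]; linarith
  have ha1 : a < 1 := by linarith
  have ha2 : a ≤ 1/2 := by
    by_contra hcon
    push Not at hcon
    have : a^2 ≤ Q := by nlinarith [sq_nonneg b, sq_nonneg c, sq_nonneg (U-a-b-c)]
    nlinarith
  -- symmetrisation
  have hsym : (19/49 - Q - 2*a*(1-a))/(1-U) + (19/49 - Q - 2*b*(1-b))/(1-V) ≤ m * (A + B) := by
    have e1 : (19/49 - Q - 2*a*(1-a))/(1-U) = (19/49 - Q - 2*a*(1-a)) * A := by rw [hA]; ring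
    have e2 : (19/49 - Q - 2*b*(1-b))/(1-V) = (19/49 - Q - 2*b*(1-b)) * B := by rw [hB]; ring
    rw [e1, e2]
    have e3 : (U - a - b - c)^2 = (U-Y)^2 := by rw [hY]; ring
    have h1 : (19/49 - Q - 2*a*(1-a)) * A
        ≤ (19/49 - (a^2+b^2+c^2+(U-Y)^2/3) - 2*a*(1-a)) * A := by
      apply mul_le_mul_of_nonneg_right _ hAp.le
      linarith
    have h2 : (19/49 - Q - 2*b*(1-b)) * B
        ≤ (19/49 - (a^2+b^2+c^2+(U-Y)^2/3) - 2*b*(1-b)) * B := by
      apply mul_le_mul_of_nonneg_right _ hBp.le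
      linarith
    obtain ⟨y, hy⟩ : ∃ y, y = Y / 3 := ⟨_, rfl⟩
    obtain ⟨p, hp⟩ : ∃ p, p = a - y := ⟨_, rfl⟩
    obtain ⟨q, hq⟩ : ∃ q, q = b - y := ⟨_, rfl⟩
    have hc' : c = y - p - q := by rw [hp, hq, hy, hY]; ring
    have h3 : m * (A + B) - ((19/49 - (a^2+b^2+c^2+(U-Y)^2/3) - 2*a*(1-a)) * A
        + (19/49 - (a^2+b^2+c^2+(U-Y)^2/3) - 2*b*(1-b)) * B)
        = A * (2*p*(1-2*y) + 2*q*(p+q)) + B * (2*q*(1-2*y) + 2*p*(p+q)) := by
      rw [hmm, hp, hq, hy, hY]; ring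
    have hpq : q ≤ p := by rw [hp, hq]; linarith
    have hpq2 : 0 ≤ p + 2 * q := by
      have : c ≤ b := hcb
      rw [hc'] at this
      rw [hq] at this ⊢
      linarith
    have hp0 : 0 ≤ p := by linarith
    have hya : y ≤ a := by linarith [hp]
    have hy12 : 0 ≤ 1 - 2*y := by linarith
    have h4 : 0 ≤ A * (2*p*(1-2*y) + 2*q*(p+q)) + B * (2*q*(1-2*y) + 2*p*(p+q)) := by
      rcases le_or_gt 0 q with h0 | h0
      · have : 0 ≤ p + q := by linarith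
        positivity
      · have hpq' : 0 ≤ p + q := by linarith
        -- 2p(1-2y) + 2q(p+q) ≥ 2p(1-2y+q)
        have h5 : 2*p*(1-2*y+q) ≤ 2*p*(1-2*y) + 2*q*(p+q) := by nlinarith [sq_nonneg q]
        have h6 : 0 ≤ 1 - 2*y + q := by linarith
        have h7 : -4*q*(1-2*y+q) ≤ 2*p*(1-2*y+q) := by nlinarith
        have h8 : 0 ≤ -4*q*(1-2*y+q) := by
          have : 0 ≤ (-q) * (1-2*y+q) := mul_nonneg (by linarith) h6
          linarith
        have h9 : B * (-4*q*(1-2*y+q)) ≤ A * (2*p*(1-2*y) + 2*q*(p+q)) := by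
          apply mul_le_mul hBA (by linarith) h8 hAp.le
        have h10 : 0 ≤ -4*q*(1-2*y+q) + (2*q*(1-2*y) + 2*p*(p+q)) := by
          have : 0 ≤ (-q) * (1 - 2*y + 2*q) := mul_nonneg (by linarith) (by linarith)
          nlinarith [mul_nonneg hp0 hpq']
        have h11 := mul_nonneg hBp.le h10
        nlinarith
    linarith
  suffices hs : m * (A + B) < 1 - Y by
    rw [hY] at hs; linarith
  rcases le_or_gt m 0 with hm0 | hm0
  · have : m * (A + B) ≤ 0 := mul_nonpos_of_nonpos_of_nonneg hm0 (by linarith)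
    linarith
  · have hV43 : V ≤ 4/3 * Y := by rw [hY]; linarith
    have hU2Y : U ≤ 2 * Y := by rw [hY] at hV43 ⊢; linarith
    rcases le_total U (4/3 * Y) with hc3 | hc3
    · have h1 : m * (A + B) ≤ m * (2 * A) := mul_le_mul_of_nonneg_left (by linarith) hm0.le
      have h2 : m * (2 * A) < 1 - Y := by
        have : m * (2 * A) = 2 * m / (1 - U) := by rw [hA]; ring
        rw [this, div_lt_iff₀ hU0, hmm]
        have hw0 : 0 ≤ U - Y := by linarith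
        have hw1 : U - Y ≤ 1/3 * Y := by linarith
        nlinarith [sq_nonneg (Y - 3/10), mul_nonneg hw0 (sub_nonneg.mpr hw1),
          mul_nonneg hYp (sub_nonneg.mpr hw1), sq_nonneg (U - Y), mul_nonneg hw0 hYp]
      linarith
    · have h43 : 0 < 1 - 4/3 * Y := by linarith
      have hB' : B ≤ 1 / (1 - 4/3 * Y) := by
        rw [hB]; exact one_div_le_one_div_of_le h43 (by linarith)
      have hG : m * (2 - U - 4/3*Y) < (1 - Y) * (1 - 4/3*Y) * (1 - U) := by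
        rcases eq_or_lt_of_le hYp with h0 | h0
        · have : U = 0 := by nlinarith
          rw [hmm, ← h0, this]; norm_num
        · have hUp : 0 < U := lt_of_lt_of_le h0 hYU
          obtain ⟨w, hw⟩ : ∃ w, w = (Y - 1/2*U) / (1/4*U) := ⟨_, rfl⟩
          have hw1 : 0 ≤ w := by rw [hw]; apply div_nonneg <;> linarith
          have hw2 : w ≤ 1 := by rw [hw, div_le_one (by linarith)]; linarith
          have hYw : Y = 1/2*U + 1/4*U*w := by rw [hw]; field_simp; ring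
          have hUU : 0 < 1/200*(1-U) := by linarith
          rcases le_total U (1/2) with hh | hh
          · have := f2_cert1 U w hUp.le hh hw1 hw2
            rw [← hYw, ← hmm] at this
            linarith
          · have := f2_cert2 U w hh hU.le hw1 hw2
            rw [← hYw, ← hmm] at this
            linarith
      have h1 : m * (A + B) ≤ m * (1 / (1 - U) + 1 / (1 - 4/3*Y)) := by
        apply mul_le_mul_of_nonneg_left _ hm0.le
        rw [← hA]; linarith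
      have h2 : m * (1 / (1 - U) + 1 / (1 - 4/3*Y)) = m * (2 - U - 4/3*Y) / ((1 - 4/3*Y) * (1 - U)) := by
        have hD : ∀ C D : ℝ, 0 < C → 0 < D → m * (1 / C + 1 / D) = m * (C + D) / (D * C) := by
          intro C D hC hD
          field_simp
          ring
        rw [hD _ _ hU0 h43]
        congr 1
        ring
      have h3 : m * (2 - U - 4/3*Y) / ((1 - 4/3*Y) * (1 - U)) < 1 - Y := by
        rw [div_lt_iff₀ (mul_pos h43 hU0)]
        linarith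
      linarith

end Pool.Agent.Helper52.LC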