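import Mathlib

namespace Pool.Agent.Helper52.LC

set_option maxRecDepth 100000

theorem p1b_pos (r e : ℝ) (h1 : 0 ≤ r) (h2 : r ≤ 1/2) (h3 : 0 ≤ e) (h4 : e ≤ 1/11) :
    0 < ((1+e)/2-(1-e)*(r*((1-r/2)*(1+18/5*e)))/2)*(1+e)*(5/6)*((1+3*e)/2) - 2*e*((1+e)*(1-2*e*(1+(r*((1-r/2)*(1+18/5*e)))))+4/3*e*((r*((1-r/2)*(1+18/5*e)))+r)) := by
  have key : ∀ u a v b : ℝ, 0 ≤ u → 0 ≤ a → 0 ≤ v → 0 ≤ b → 0 ≤ (541717/48)*a^2*b^4
      + (480491/12)*a^2*v^1*b^3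
      + (1297967/24)*a^2*v^2*b^2
      + (133551/4)*a^2*v^3*b^1
      + (128975/16)*a^2*v^4
      + (131769/8)*u^1*a^1*b^4
      + (624239/12)*u^1*a^1*v^1*b^3
      + (717167/12)*u^1*a^1*v^2*b^2
      + (899503/30)*u^1*a^1*v^3*b^1
      + (696193/120)*u^1*a^1*v^4
      + (161051/24)*u^2*b^4
      + (911735/48)*u^2*v^1*b^3
      + (140965/8)*u^2*v^2*b^2
      + (164131/30)*u^2*v^3*b^1
      + (38257/240)*u^2*v^4 := by
    intro u a v b hu ha hv hb; positivity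
  have h := key (r - 0) (1/2 - r) (e - 0) (1/11 - e) (by linarith) (by linarith) (by linarith) (by linarith)
  have h' : (0:ℝ) < 1/64 := by norm_num
  refine lt_of_lt_of_le h' ?_
  rw [← sub_nonneg]
  refine le_of_le_of_eq h ?_
  ring

theorem p1c_pos (r e : ℝ) (h1 : 0 ≤ r) (h2 : r ≤ 1/2) (h3 : 0 ≤ e) (h4 : e ≤ 1/11) :
    0 < r/6+5/6*(1-(3-e)*(1+(r*((1-r/2)*(1+18/5*e))))/4) := by
  have key : ∀ u a v b : ℝ, 0 ≤ u → 0 ≤ a → 0 ≤ v → 0 ≤ b → 0 ≤ (9317/96)*a^2*b^2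
      + (9757/48)*a^2*v^1*b^1
      + (3399/32)*a^2*v^2
      + (1331/16)*u^1*a^1*b^2
      + (3355/24)*u^1*a^1*v^1*b^1
      + (2789/48)*u^1*a^1*v^2
      + (2299/96)*u^2*b^2
      + (187/8)*u^2*v^1*b^1
      + (53/96)*u^2*v^2 := by
    intro u a v b hu ha hv hb; positivity
  have h := key (r - 0) (1/2 - r) (e - 0) (1/11 - e) (by linarith) (by linarith) (by linarith) (by linarith)
  have h' : (0:ℝ) < 1/128 := by norm_num
  refine lt_of_lt_of_le h' ?_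
  rw [← sub_nonneg]
  refine le_of_le_of_eq h ?_
  ring

theorem p2a_pos (r e : ℝ) (h1 : 1/2 ≤ r) (h2 : r ≤ 1) (h3 : 0 ≤ e) (h4 : e ≤ 1/11) :
    0 < (((1+e)/2-(1-e)*(r*((1-r/2)*(1+18/5*e)))/2)*(1+e)+4/3*((1+5*e)/4)*((r*((1-r/2)*(1+18/5*e)))+r))*(1+e) - 16/3*e*((1+e)*(1-2*e*(1+(r*((1-r/2)*(1+18/5*e)))))+4/3*e*((r*((1-r/2)*(1+18/5*e)))+r))*(1+((1-r/2)*(1+18/5*e))) := by
  have key : ∀ u a v b : ℝ, 0 ≤ u → 0 ≤ a → 0 ≤ v → 0 ≤ b → 0 ≤ (18198763/24)*a^3*b^5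
      + (363667799/120)*a^3*v^1*b^4
      + (809845619/180)*a^3*v^2*b^3
      + (35297515/12)*a^3*v^3*b^2
      + (433947283/600)*a^3*v^4*b^1
      + (16120901/1800)*a^3*v^5
      + (19487171/8)*u^1*a^2*b^5
      + (1223592293/120)*u^1*a^2*v^1*b^4
      + (2939166109/180)*u^1*a^2*v^2*b^3
      + (737809237/60)*u^1*a^2*v^3*b^2
      + (508347301/120)*u^1*a^2*v^4*b^1
      + (183037763/360)*u^1*a^2*v^5
      + (62970941/24)*u^2*a^1*b^5
      + (456901687/40)*u^2*a^1*v^1*b^4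
      + (1161865837/60)*u^2*a^1*v^2*b^3
      + (955117493/60)*u^2*a^1*v^3*b^2
      + (1267172467/200)*u^2*a^1*v^4*b^1
      + (590329669/600)*u^2*a^1*v^5
      + (7569397/8)*u^3*b^5
      + (170260189/40)*u^3*v^1*b^4
      + (150721109/20)*u^3*v^2*b^3
      + (26271641/4)*u^3*v^3*b^2
      + (565792337/200)*u^3*v^4*b^1
      + (97410653/200)*u^3*v^5 := by
    intro u a v b hu ha hv hb; positivity
  have h := key (r - 1/2) (1 - r) (e - 0) (1/11 - e) (by linarith) (by linarith) (by linarith) (by linarith)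
  have h' : (0:ℝ) < 1/64 := by norm_num
  refine lt_of_lt_of_le h' ?_
  rw [← sub_nonneg]
  refine le_of_le_of_eq h ?_
  ring

theorem p1a_pos (r e : ℝ) (h1 : 0 ≤ r) (h2 : r ≤ 1/2) (h3 : 0 ≤ e) (h4 : e ≤ 1/11) :
    0 < (((1+e)/2-(1-e)*(r*((1-r/2)*(1+18/5*e)))/2)*(1+e)+4/3*((1+5*e)/4)*((r*((1-r/2)*(1+18/5*e)))+r))*(1+e)*((1+e)*(r/6+5/6*(1-(3-e)*(1+(r*((1-r/2)*(1+18/5*e))))/4))+10/9*((1+3*e)/2)*((r*((1-r/2)*(1+18/5*e)))+r)) - 8/3*e*((1+e)*(1-2*e*(1+(r*((1-r/2)*(1+18/5*e)))))+4/3*e*((r*((1-r/2)*(1+18/5*e)))+r))*(((1-r/2)*(1+18/5*e))+1)*(((1+e)*(r/6+5/6*(1-(3-e)*(1+(r*((1-r/2)*(1+18/5*e))))/4))+10/9*((1+3*e)/2)*((r*((1-r/2)*(1+18/5*e)))+r))+r*(1+e)) := by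
  have key : ∀ u a v b : ℝ, 0 ≤ u → 0 ≤ a → 0 ≤ v → 0 ≤ b → 0 ≤ (16505633837/24)*a^5*b^8
      + (46204082441/9)*a^5*v^1*b^7
      + (99375714295/6)*a^5*v^2*b^6
      + 30091574095*a^5*v^3*b^5
      + (1208352724997/36)*a^5*v^4*b^4
      + 23429181721*a^5*v^5*b^3
      + (19849695833/2)*a^5*v^6*b^2
      + 2306777759*a^5*v^7*b^1
      + (1766122655/8)*a^5*v^8
      + (336757802051/72)*u^1*a^4*b^8
      + (914552422201/27)*u^1*a^4*v^1*b^7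
      + (9458890332617/90)*u^1*a^4*v^2*b^6
      + (24474175931227/135)*u^1*a^4*v^3*b^5
      + (101602628066687/540)*u^1*a^4*v^4*b^4
      + (1771272728027/15)*u^1*a^4*v^5*b^3
      + (11370835507691/270)*u^1*a^4*v^6*b^2
      + (21117026513/3)*u^1*a^4*v^7*b^1
      + (29180123797/120)*u^1*a^4*v^8
      + (1304373790885/108)*u^2*a^3*b^8
      + (11713095411457/135)*u^2*a^3*v^1*b^7
      + (21581639738153/81)*u^2*a^3*v^2*b^6
      + (20397956439311/45)*u^2*a^3*v^3*b^5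
      + (622798738368389/1350)*u^2*a^3*v^4*b^4
      + (568805605883416/2025)*u^2*a^3*v^5*b^3
      + (12801745063459/135)*u^2*a^3*v^6*b^2
      + (1860992113882/135)*u^2*a^3*v^7*b^1
      + (410695339667/8100)*u^2*a^3*v^8
      + (1630628007767/108)*u^3*a^2*b^8
      + (58756490307427/540)*u^3*a^2*v^1*b^7
      + (181306444019921/540)*u^3*a^2*v^2*b^6
      + (310826513332049/540)*u^3*a^2*v^3*b^5
      + (320444420048819/540)*u^3*a^2*v^4*b^4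
      + (249703554203741/675)*u^3*a^2*v^5*b^3
      + (88613112598703/675)*u^3*a^2*v^6*b^2
      + (14882462455586/675)*u^3*a^2*v^7*b^1
      + (91464656857/108)*u^3*a^2*v^8
      + (7979509345225/864)*u^4*a^1*b^8
      + (58020732679151/864)*u^4*a^1*v^1*b^7
      + (906286848271739/4320)*u^4*a^1*v^2*b^6
      + (1581498446634029/4320)*u^4*a^1*v^3*b^5
      + (232608487756777/600)*u^4*a^1*v^4*b^4
      + (136328887033889/540)*u^4*a^1*v^5*b^3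
      + (43639879797173/450)*u^4*a^1*v^6*b^2
      + (13093866461489/675)*u^4*a^1*v^7*b^1
      + (7657002222769/5400)*u^4*a^1*v^8
      + (1922584803689/864)*u^5*b^8
      + (23573455374161/1440)*u^5*v^1*b^7
      + (134627987146829/2592)*u^5*v^2*b^6
      + (399912791972749/4320)*u^5*v^3*b^5
      + (181818494576543/1800)*u^5*v^4*b^4
      + (139251062258396/2025)*u^5*v^5*b^3
      + (6375868473359/225)*u^5*v^6*b^2
      + (1440672657413/225)*u^5*v^7*b^1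
      + (9708909084791/16200)*u^5*v^8 := by
    intro u a v b hu ha hv hb; positivity
  have h := key (r - 0) (1/2 - r) (e - 0) (1/11 - e) (by linarith) (by linarith) (by linarith) (by linarith)
  have h' : (0:ℝ) < 1/256 := by norm_num
  refine lt_of_lt_of_le h' ?_
  rw [← sub_nonneg]
  refine le_of_le_of_eq h ?_
  ring

end Pool.Agent.Helper52.LC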