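import Pool.Agent.Helper52.LC.IneqG

namespace Pool.Agent.Helper52.LC

/-- A concave quadratic positive at both endpoints is positive in between, and related facts,
packaged for `G0`. -/
theorem quad_pos (r0 al c e k D M : ℝ) (hr0 : 0 < r0) (hc : 0 < c) (he : 0 ≤ e)
    (hb : k < r0 * e) (hD0 : 0 ≤ D) (hDM : D ≤ M)
    (hM : 0 < (r0 + al * M) * (c + e * M) - k * M) :
    0 < (r0 + al * D) * (c + e * D) - k * D := by
  rcases le_or_gt 0 al with hal | hal
  · have h1 : 0 ≤ al * D := mul_nonneg hal hD0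
    have h2 : 0 ≤ e * D := mul_nonneg he hD0
    have h3 : 0 ≤ (r0 * e - k) * D := mul_nonneg (by linarith) hD0
    linarith only [h3, hr0, hc, h1, h2, mul_pos hr0 hc, mul_nonneg h1 hc.le, mul_nonneg h1 h2]
  · rcases hD0.eq_or_lt with h0 | h0
    · subst h0; simpa using mul_pos hr0 hc
    · have hM0 : 0 < M := lt_of_lt_of_le h0 hDM
      -- M * q(D) = (M - D) q(0) + D q(M) - al*e*D*(M-D)*M
      have key : M * ((r0 + al * D) * (c + e * D) - k * D)
          = (M - D) * (r0 * c) + D * ((r0 + al * M) * (c + e * M) - k * M)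
            + (-al) * e * (D * (M - D) * M) := by ring
      have hp : 0 < M * ((r0 + al * D) * (c + e * D) - k * D) := by
        rw [key]
        have h1 : 0 ≤ (M - D) * (r0 * c) :=
          mul_nonneg (by linarith) (mul_pos hr0 hc).le
        have h2 : 0 < D * ((r0 + al * M) * (c + e * M) - k * M) := mul_pos h0 hM
        have h3 : 0 ≤ (-al) * e * (D * (M - D) * M) :=
          mul_nonneg (mul_nonneg (by linarith) he)
            (mul_nonneg (mul_nonneg hD0 (by linarith)) hM0.le)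
        linarith
      exact (pos_iff_pos_of_mul_pos hp).mp hM0

theorem G0 (ε ρ q B ρs : ℝ) (hε0 : 0 ≤ ε) (hε : ε ≤ 1 / 11) (hρ0 : 0 < ρ) (hρ1 : ρ ≤ 1)
    (hq : q = ρ * ((1 - ρ / 2) * (1 + 18 / 5 * ε))) (hB : B ≤ 1 + q)
    (hW : 1 - ρ ≤ 3 / 4 * (1 + ε) * B + 1 / 4 * (1 - 3 * ε) * (1 + q)) (h1 : ρ ≤ ρs)
    (h2 : 1 - 1 / 4 * (1 - 7 * ε) * (1 + q) - 1 / 2 * (1 + 3 * ε) * B ≤ ρs) :
    1 / 4 * (1 - 7 * ε) * (1 + q) + 1 / 4 * (1 + 5 * ε) * B
      + 2 * ε * (1 + q - B) * (1 - ε * (1 + q + B)) * (1 / ρ + 1 / ρs) < 1 := by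
  obtain ⟨D, hD⟩ : ∃ D, D = 1 + q - B := ⟨_, rfl⟩
  have hBD : B = 1 + q - D := by linarith only [hD]
  subst hBD
  have hD0 : 0 ≤ D := by linarith
  have hρs : 0 < ρs := lt_of_lt_of_le hρ0 h1
  have h1e : 0 < 1 + ε := by linarith
  obtain ⟨M, hM⟩ : ∃ M, M = 4 / 3 * (q + ρ) / (1 + ε) := ⟨_, rfl⟩
  have hMe : M * (1 + ε) = 4 / 3 * (q + ρ) := by rw [hM]; field_simp
  have hDM : D ≤ M := by
    rw [hM, le_div_iff₀ h1e]; linarith only [hW]
  obtain ⟨om, hom⟩ : ∃ om, om = 1 - 2 * ε * (1 + q) + ε * M := ⟨_, rfl⟩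
  obtain ⟨r0, hr0⟩ : ∃ r0, r0 = (1 + ε) / 2 - (1 - ε) * q / 2 := ⟨_, rfl⟩
  obtain ⟨r1, hr1⟩ : ∃ r1, r1 = (1 + 5 * ε) / 4 := ⟨_, rfl⟩
  obtain ⟨y, hy⟩ : ∃ y, y = 1 / ρ := ⟨_, rfl⟩
  have hy0 : 0 < y := by rw [hy]; positivity
  have hyρ : y * ρ = 1 := by rw [hy]; field_simp
  have hs : (1 - ρ / 2) * (1 + 18 / 5 * ε) = q * y := by
    rw [hq]
    linear_combination (-(1 - ρ / 2) * (1 + 18 / 5 * ε)) * hyρ
  have hq0 : 0 ≤ q := by
    rw [hq]; exact mul_nonneg hρ0.le (mul_nonneg (by linarith only [hρ1]) (by linarith only [hε0]))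
  have hM0 : 0 ≤ M := le_trans hD0 hDM
  -- r0 > 0
  have hr0p : 0 < r0 := by
    rw [hr0, hq]
    have ha : ρ * (1 - ρ / 2) ≤ 1 / 2 := by linarith only [sq_nonneg (ρ - 1)]
    have hb : ρ * ((1 - ρ / 2) * (1 + 18 / 5 * ε)) ≤ 1 / 2 * (1 + 18 / 5 * ε) := by
      rw [← mul_assoc]
      exact mul_le_mul_of_nonneg_right ha (by linarith only [hε0])
    nlinarith only [hε, hb, hε0, hq, hq0]
  have hq1 : q ≤ 2 / 3 := by
    rw [hq]
    have ha : ρ * (1 - ρ / 2) ≤ 1 / 2 := by linarith only [sq_nonneg (ρ - 1)]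
    have hb : ρ * ((1 - ρ / 2) * (1 + 18 / 5 * ε)) ≤ 1 / 2 * (1 + 18 / 5 * ε) := by
      rw [← mul_assoc]
      exact mul_le_mul_of_nonneg_right ha (by linarith only [hε0])
    linarith only [hε, hb]
  have homp : 0 ≤ om := by
    rw [hom]; nlinarith only [hε, hε0, hM0, hq1, mul_nonneg hε0 hM0]
  -- reduce to the statement in terms of D
  have hgoal : 2 * ε * om * D * (1 / ρ + 1 / ρs) < r0 + r1 * D → 
      1 / 4 * (1 - 7 * ε) * (1 + q) + 1 / 4 * (1 + 5 * ε) * (1 + q - D)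
      + 2 * ε * (1 + q - (1 + q - D)) * (1 - ε * (1 + q + (1 + q - D))) * (1 / ρ + 1 / ρs) < 1 := by
    intro h
    have hpos : 0 ≤ 2 * ε * D * (1 / ρ + 1 / ρs) := by positivity
    have h3 : 2 * ε * (1 + q - (1 + q - D)) * (1 - ε * (1 + q + (1 + q - D))) * (1 / ρ + 1 / ρs)
        ≤ 2 * ε * om * D * (1 / ρ + 1 / ρs) := by
      have e1 : 2 * ε * (1 + q - (1 + q - D)) * (1 - ε * (1 + q + (1 + q - D))) * (1 / ρ + 1 / ρs)
          = (2 * ε * D * (1 / ρ + 1 / ρs)) * (1 - 2 * ε * (1 + q) + ε * D) := by ring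
      have e2 : 2 * ε * om * D * (1 / ρ + 1 / ρs) = (2 * ε * D * (1 / ρ + 1 / ρs)) * om := by ring
      rw [e1, e2]
      apply mul_le_mul_of_nonneg_left _ hpos
      rw [hom]
      nlinarith only [hε0, hDM]
    rw [hr0, hr1] at h
    linarith only [h, h3]
  apply hgoal
  rcases le_total ρ (1 / 2) with hr | hr
  · -- region 1
    have c1 := p1c_pos ρ ε hρ0.le hr hε0 hε
    have c2 := p1b_pos ρ ε hρ0.le hr hε0 hε
    have c3 := p1a_pos ρ ε hρ0.le hr hε0 hε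
    rw [← hq] at c1 c2 c3
    obtain ⟨cc, hcc⟩ : ∃ c, c = ρ / 6 + 5 / 6 * (1 - (3 - ε) * (1 + q) / 4) := ⟨_, rfl⟩
    obtain ⟨ee, hee⟩ : ∃ e, e = 5 / 6 * ((1 + 3 * ε) / 2) := ⟨_, rfl⟩
    have hccp : 0 < cc := by rw [hcc]; exact c1
    have hee0 : 0 < ee := by rw [hee]; positivity
    have hRs : cc + ee * D ≤ ρs := by
      rw [hcc, hee]; linarith only [h1, h2]
    have hRD : 0 < cc + ee * D := by positivity
    have hb : 2 * ε * om < r0 * ee := by
      have : 0 < (1 + ε) * (r0 * ee - 2 * ε * om) := by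
        rw [hr0, hee, hom]
        have e1 : (1 + ε) * (((1 + ε) / 2 - (1 - ε) * q / 2) * (5 / 6 * ((1 + 3 * ε) / 2))
            - 2 * ε * (1 - 2 * ε * (1 + q) + ε * M))
            = ((1 + ε) / 2 - (1 - ε) * q / 2) * (1 + ε) * (5 / 6) * ((1 + 3 * ε) / 2)
              - 2 * ε * ((1 + ε) * (1 - 2 * ε * (1 + q)) + ε * (M * (1 + ε))) := by ring
        rw [e1, hMe]
        refine lt_of_lt_of_eq c2 ?_
        ring
      have := (pos_iff_pos_of_mul_pos this).mp h1e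
      linarith only [this]
    have hqM : 0 < (r0 + (r1 - 2 * ε * om * y) * M) * (cc + ee * M) - (2 * ε * om) * M := by
      have e1 : (1 + ε) ^ 3 * ((r0 + (r1 - 2 * ε * om * y) * M) * (cc + ee * M)
          - (2 * ε * om) * M)
          = (r0 * (1 + ε) + r1 * (M * (1 + ε))) * (1 + ε) * (cc * (1 + ε) + ee * (M * (1 + ε)))
            - 2 * ε * (om * (1 + ε)) * (M * (1 + ε)) *
              (y * (cc * (1 + ε) + ee * (M * (1 + ε))) + (1 + ε)) := by ring
      have e2 : om * (1 + ε) = (1 + ε) * (1 - 2 * ε * (1 + q)) + ε * (M * (1 + ε)) := by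
        rw [hom]; ring
      have hpos : 0 < (1 + ε) ^ 3 * ((r0 + (r1 - 2 * ε * om * y) * M) * (cc + ee * M)
          - (2 * ε * om) * M) := by
        rw [e1, e2, hMe, hcc, hee, hr0, hr1]
        refine lt_of_lt_of_eq c3 ?_
        rw [hs]
        linear_combination (-8 / 3 * ε * ((1 + ε) * (1 - 2 * ε * (1 + q)) + 4 / 3 * ε * (q + ρ)) *
          (q * (1 + ε) - ((1 + ε) * (ρ / 6 + 5 / 6 * (1 - (3 - ε) * (1 + q) / 4))
            + 10 / 9 * ((1 + 3 * ε) / 2) * (q + ρ)))) * hyρ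
      exact (pos_iff_pos_of_mul_pos hpos).mp (by positivity)
    have hfin := quad_pos r0 (r1 - 2 * ε * om * y) cc ee (2 * ε * om) D M hr0p hccp hee0.le hb
      hD0 hDM hqM
    have hle : 1 / ρs ≤ 1 / (cc + ee * D) := one_div_le_one_div_of_le hRD hRs
    have hk : 0 ≤ 2 * ε * om * D := by positivity
    have h5 : 2 * ε * om * D * (1 / ρ + 1 / ρs)
        ≤ 2 * ε * om * D * (y + 1 / (cc + ee * D)) := by
      apply mul_le_mul_of_nonneg_left _ hk
      rw [hy]; linarith only [hle]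
    refine lt_of_le_of_lt h5 ?_
    have h6 : 2 * ε * om * D * (y + 1 / (cc + ee * D))
        = (2 * ε * om * D * y * (cc + ee * D) + 2 * ε * om * D) / (cc + ee * D) := by
      field_simp
    rw [h6, div_lt_iff₀ hRD]
    linarith only [hfin]
  · -- region 2
    have c4 := p2a_pos ρ ε hr hρ1 hε0 hε
    rw [← hq] at c4
    have hle : 1 / ρs ≤ y := by
      rw [hy]; exact one_div_le_one_div_of_le hρ0 h1
    have hk : 0 ≤ 2 * ε * om * D := by positivity
    have h5 : 2 * ε * om * D * (1 / ρ + 1 / ρs) ≤ 2 * ε * om * D * (y + y) := by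
      apply mul_le_mul_of_nonneg_left _ hk
      rw [← hy]; linarith only [hle]
    refine lt_of_le_of_lt h5 ?_
    have hqM : 0 < r0 + (r1 - 4 * ε * om * y) * M := by
      have e1 : (1 + ε) ^ 2 * (r0 + (r1 - 4 * ε * om * y) * M)
          = (r0 * (1 + ε) + r1 * (M * (1 + ε))) * (1 + ε)
            - 4 * ε * (om * (1 + ε)) * (M * (1 + ε)) * y := by ring
      have e2 : om * (1 + ε) = (1 + ε) * (1 - 2 * ε * (1 + q)) + ε * (M * (1 + ε)) := by
        rw [hom]; ring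
      have hpos : 0 < (1 + ε) ^ 2 * (r0 + (r1 - 4 * ε * om * y) * M) := by
        rw [e1, e2, hMe, hr0, hr1]
        refine lt_of_lt_of_eq c4 ?_
        rw [hs]
        linear_combination (16 / 3 * ε * ((1 + ε) * (1 - 2 * ε * (1 + q)) + 4 / 3 * ε * (q + ρ))) * hyρ
      exact (pos_iff_pos_of_mul_pos hpos).mp (by positivity)
    rcases le_or_gt 0 (r1 - 4 * ε * om * y) with hal | hal
    · linarith only [hr0p, hal, hD0, mul_nonneg hal hD0]
    · linarith only [hqM, hal, hDM, mul_nonneg (neg_nonneg.mpr hal.le) (sub_nonneg.mpr hDM)]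

end Pool.Agent.Helper52.LC
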