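import Pool.Agent.Helper52.LC.IneqG0
import Pool.Agent.Helper52.LC.IneqB0

namespace Pool.Agent.Helper52.LC

/-- The upper bound for the largest weight. -/
noncomputable def pbar (T ρ : ℝ) : ℝ :=
  (1 + ρ * ((1 - ρ / 2) * (1 + 18 / 5 * (1 / (2 * T - 1))))) / (2 * T - 1)

/-- `G0` in unscaled variables. -/
theorem G0' (T p b ρ ρs : ℝ) (hT : 6 ≤ T) (hρ0 : 0 < ρ) (hρ1 : ρ ≤ 1) (hp : p = pbar T ρ)
    (hbp : b ≤ p) (hW : 1 - ρ ≤ (T / 2 - 1) * p + 3 * T / 2 * b) (h1 : ρ ≤ ρs)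
    (h2 : 1 - (T / 2 - 2) * p - (T + 1) * b ≤ ρs) :
    (T / 2 - 2) * p + (T / 2 + 1) * b + 2 * (p - b) * (1 - p - b) * (1 / ρ + 1 / ρs) < 1 := by
  obtain ⟨N, hN⟩ : ∃ N, N = 2 * T - 1 := ⟨_, rfl⟩
  have hN11 : 11 ≤ N := by linarith
  have hN0 : 0 < N := by linarith
  have hNne : N ≠ 0 := hN0.ne'
  obtain ⟨ε, hε⟩ : ∃ ε, ε = 1 / N := ⟨_, rfl⟩
  have hεN : ε * N = 1 := by rw [hε]; field_simp
  have hε0 : 0 ≤ ε := by rw [hε]; positivity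
  have hε1 : ε ≤ 1 / 11 := by
    rw [hε]; exact one_div_le_one_div_of_le (by norm_num) hN11
  obtain ⟨q, hq⟩ : ∃ q, q = ρ * ((1 - ρ / 2) * (1 + 18 / 5 * ε)) := ⟨_, rfl⟩
  have hpN : p * N = 1 + q := by
    rw [hp, pbar, ← hN, ← hε, ← hq]; field_simp
  have hTN : T = (N + 1) / 2 := by linarith
  have hg := G0 ε ρ q (b * N) ρs hε0 hε1 hρ0 hρ1 hq
    (by rw [← hpN]; exact mul_le_mul_of_nonneg_right hbp hN0.le)
    (by
      rw [← hpN]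
      have e : 3 / 4 * (1 + ε) * (b * N) + 1 / 4 * (1 - 3 * ε) * (p * N)
          = 3 / 4 * b * (N + ε * N) + 1 / 4 * p * (N - 3 * (ε * N)) := by ring
      rw [e, hεN]
      rw [hTN] at hW
      linarith)
    h1
    (by
      rw [← hpN]
      have e : 1 - 1 / 4 * (1 - 7 * ε) * (p * N) - 1 / 2 * (1 + 3 * ε) * (b * N)
          = 1 - 1 / 4 * p * (N - 7 * (ε * N)) - 1 / 2 * b * (N + 3 * (ε * N)) := by ring
      rw [e, hεN]
      rw [hTN] at h2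
      linarith)
  rw [← hpN] at hg
  have e : 1 / 4 * (1 - 7 * ε) * (p * N) + 1 / 4 * (1 + 5 * ε) * (b * N)
      + 2 * ε * (p * N - b * N) * (1 - ε * (p * N + b * N)) * (1 / ρ + 1 / ρs)
      = 1 / 4 * p * (N - 7 * (ε * N)) + 1 / 4 * b * (N + 5 * (ε * N))
        + 2 * (ε * N) * (p - b) * (1 - (ε * N) * (p + b)) * (1 / ρ + 1 / ρs) := by ring
  rw [e, hεN] at hg
  rw [hTN]
  have e2 : ((N + 1) / 2 / 2 - 2) * p + ((N + 1) / 2 / 2 + 1) * b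
      + 2 * (p - b) * (1 - p - b) * (1 / ρ + 1 / ρs)
      = 1 / 4 * p * (N - 7 * 1) + 1 / 4 * b * (N + 5 * 1)
        + 2 * 1 * (p - b) * (1 - 1 * (p + b)) * (1 / ρ + 1 / ρs) := by ring
  rw [e2]
  exact hg

theorem pbar_pos (T ρ : ℝ) (hT : 6 ≤ T) (hρ0 : 0 ≤ ρ) (hρ1 : ρ ≤ 1) : 0 < pbar T ρ := by
  unfold pbar
  have hN : 0 < 2 * T - 1 := by linarith
  apply div_pos _ hN
  have : 0 ≤ ρ * ((1 - ρ / 2) * (1 + 18 / 5 * (1 / (2 * T - 1)))) := by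
    apply mul_nonneg hρ0
    apply mul_nonneg (by linarith)
    positivity
  linarith

theorem pbar_le (T ρ : ℝ) (hT : 6 ≤ T) (hρ0 : 0 ≤ ρ) (hρ1 : ρ ≤ 1) : pbar T ρ ≤ 1 / 6 := by
  unfold pbar
  have hN : 11 ≤ 2 * T - 1 := by linarith
  have hN0 : 0 < 2 * T - 1 := by linarith
  rw [div_le_iff₀ hN0]
  have hε : 1 / (2 * T - 1) ≤ 1 / 11 := one_div_le_one_div_of_le (by norm_num) hN
  have hε0 : 0 ≤ 1 / (2 * T - 1) := by positivity
  have ha : ρ * (1 - ρ / 2) ≤ 1 / 2 := by nlinarith [sq_nonneg (ρ - 1)]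
  have ha0 : 0 ≤ ρ * (1 - ρ / 2) := mul_nonneg hρ0 (by linarith)
  have : ρ * ((1 - ρ / 2) * (1 + 18 / 5 * (1 / (2 * T - 1))))
      ≤ 1 / 2 * (1 + 18 / 5 * (1 / 11)) := by
    rw [← mul_assoc]
    apply mul_le_mul ha _ (by positivity) (by norm_num)
    linarith
  norm_num at this ⊢
  linarith

/-- Main inequality for single steps between consecutive hubs. -/
theorem G1 (T h p a b ρ ρs : ℝ) (hT : 6 ≤ T) (hh : 2 * h ≤ T) (hρ0 : 0 < ρ) (hρ1 : ρ ≤ 1)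
    (hp : p = pbar T ρ) (hb0 : 0 ≤ b) (hba : b ≤ a) (hap : a ≤ p) (hab : a + b ≤ 1 - ρ)
    (hW : 1 - ρ ≤ (h - 1) * p + (2 * T - h) * b) (h1 : ρ ≤ ρs)
    (h2 : 1 - (h - 2) * p - a - T * b ≤ ρs) :
    (h - 2) * p + a + (T - h) * b + 2 * (p - a) * (1 - p - a) / ρ
      + 2 * (p - b) * (1 - p - b) / ρs < 1 := by
  have hp6 : p ≤ 1 / 6 := by rw [hp]; exact pbar_le T ρ hT hρ0.le hρ1
  have hbp : b ≤ p := le_trans hba hap
  obtain ⟨r, hr⟩ : ∃ r, r = max ρ (1 - (T / 2 - 2) * p - (T + 1) * b) := ⟨_, rfl⟩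
  have hr1 : ρ ≤ r := by rw [hr]; exact le_max_left _ _
  have hr2 : 1 - (T / 2 - 2) * p - (T + 1) * b ≤ r := by rw [hr]; exact le_max_right _ _
  have hr0 : 0 < r := lt_of_lt_of_le hρ0 hr1
  have hρs0 : 0 < ρs := lt_of_lt_of_le hρ0 h1
  have hTh : 0 ≤ (T / 2 - h) * (p - b) := mul_nonneg (by linarith) (by linarith)
  have hg := G0' T p b ρ r hT hρ0 hρ1 hp hbp (by nlinarith) hr1 hr2
  obtain ⟨m, hm⟩ : ∃ m, m = 2 * (p - b) * (1 - p - b) := ⟨_, rfl⟩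
  have hm0 : 0 ≤ m := by
    rw [hm]; apply mul_nonneg (by linarith) (by linarith)
  rw [← hm] at hg
  have hma : 2 * (p - a) * (1 - p - a) = m - 2 * (a - b) * (1 - a - b) := by rw [hm]; ring
  rw [hma, ← hm]
  -- comparison of the reciprocals
  have hcomp : 1 / ρs ≤ 1 / r + (a - b) * (1 / ρs * (1 / r)) := by
    have hle : r - (a - b) ≤ ρs := by
      rcases le_total (1 - (T / 2 - 2) * p - (T + 1) * b) ρ with hc | hc
      · rw [hr, max_eq_left hc]; linarith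
      · rw [hr, max_eq_right hc]; nlinarith
    have e : 1 / r + (a - b) * (1 / ρs * (1 / r)) - 1 / ρs = (ρs - (r - (a - b))) / (ρs * r) := by
      field_simp; ring
    have : 0 ≤ (ρs - (r - (a - b))) / (ρs * r) := by
      apply div_nonneg (by linarith); positivity
    linarith
  have hmr : m * (1 / r) ≤ 1 / 2 := by
    have h3 : 1 / r ≤ 1 / ρ := one_div_le_one_div_of_le hρ0 hr1
    have h4 : m * (1 / r) ≤ m * (1 / ρ) := mul_le_mul_of_nonneg_left h3 hm0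
    have h5 : 0 ≤ (T / 2 - 2) * p + (T / 2 + 1) * b := by
      have : 0 ≤ p := by linarith
      have : 0 ≤ (T / 2 - 2) * p := mul_nonneg (by linarith) this
      have : 0 ≤ (T / 2 + 1) * b := mul_nonneg (by linarith) hb0
      linarith
    nlinarith
  have hρs' : 1 / ρs ≤ 1 / ρ := one_div_le_one_div_of_le hρ0 h1
  have hδ : 0 ≤ a - b := by linarith
  have hsum : ρ + 1 / 2 ≤ 2 * (1 - a - b) := by
    rcases le_total (1 / 2) ρ with hc | hc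
    · linarith
    · linarith
  have hms : m * (1 / ρs) ≤ m * (1 / r) + (a - b) * (1 / 2 * (1 / ρ)) := by
    have e1 : m * (1 / ρs) ≤ m * (1 / r + (a - b) * (1 / ρs * (1 / r))) :=
      mul_le_mul_of_nonneg_left hcomp hm0
    have e2 : m * (1 / r + (a - b) * (1 / ρs * (1 / r)))
        = m * (1 / r) + (a - b) * ((m * (1 / r)) * (1 / ρs)) := by ring
    have e3 : (m * (1 / r)) * (1 / ρs) ≤ 1 / 2 * (1 / ρ) := by
      apply mul_le_mul hmr hρs' (by positivity) (by norm_num)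
    have e4 := mul_le_mul_of_nonneg_left e3 hδ
    linarith
  have hfin : (a - b) * (1 + 1 / 2 * (1 / ρ) - 2 * (1 - a - b) * (1 / ρ)) ≤ 0 := by
    apply mul_nonpos_of_nonneg_of_nonpos hδ
    have : 1 + 1 / 2 * (1 / ρ) - 2 * (1 - a - b) * (1 / ρ)
        = (ρ + 1 / 2 - 2 * (1 - a - b)) / ρ := by field_simp
    rw [this]
    exact div_nonpos_of_nonpos_of_nonneg (by linarith) hρ0.le
  have e5 : (m - 2 * (a - b) * (1 - a - b)) / ρ = m * (1 / ρ) - (a - b) * (2 * (1 - a - b) * (1 / ρ)) := by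
    field_simp
  have e6 : m / ρs = m * (1 / ρs) := by ring
  rw [e5, e6]
  nlinarith

/-- Existence of the first extra connector. -/
theorem G2 (T h p b ρ : ℝ) (hT : 6 ≤ T) (hh : 2 * h ≤ T) (hρ0 : 0 < ρ) (hρ1 : ρ ≤ 1)
    (hp : p = pbar T ρ) (hb0 : 0 ≤ b) (hbp : b ≤ p)
    (hW : 1 - ρ ≤ (h - 1) * p + (2 * T - h) * b) :
    (h - 1) * p + b + 2 * (p - b) * (1 - p - b) / ρ < 1 := by
  have hp6 : p ≤ 1 / 6 := by rw [hp]; exact pbar_le T ρ hT hρ0.le hρ1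
  have hp0 : 0 ≤ p := by linarith
  obtain ⟨r, hr⟩ : ∃ r, r = max ρ (1 - (T / 2 - 2) * p - (T + 1) * b) := ⟨_, rfl⟩
  have hr1 : ρ ≤ r := by rw [hr]; exact le_max_left _ _
  have hr2 : 1 - (T / 2 - 2) * p - (T + 1) * b ≤ r := by rw [hr]; exact le_max_right _ _
  have hr0 : 0 < r := lt_of_lt_of_le hρ0 hr1
  have hTh : 0 ≤ (T / 2 - h) * (p - b) := mul_nonneg (by linarith) (by linarith)
  have hrle : r ≤ 1 := by
    rw [hr]; apply max_le hρ1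
    have : 0 ≤ (T / 2 - 2) * p := mul_nonneg (by linarith) hp0
    have : 0 ≤ (T + 1) * b := mul_nonneg (by linarith) hb0
    linarith
  have hg := G0' T p b ρ r hT hρ0 hρ1 hp hbp (by nlinarith) hr1 hr2
  obtain ⟨m, hm⟩ : ∃ m, m = 2 * (p - b) * (1 - p - b) := ⟨_, rfl⟩
  have hm0 : 0 ≤ m := by
    rw [hm]; apply mul_nonneg (by linarith) (by linarith)
  have hmp : p - b ≤ m := by
    rw [hm]; nlinarith
  rw [← hm] at hg ⊢
  have h3 : 1 ≤ 1 / r := by rw [le_div_iff₀ hr0]; linarith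
  have h4 : m ≤ m * (1 / r) := by nlinarith
  have e6 : m / ρ = m * (1 / ρ) := by ring
  rw [e6]
  have h5 : 0 ≤ (T / 2 - 1) * b := mul_nonneg (by linarith) hb0
  nlinarith

/-- Inequality for the second extra connector (odd `t ≥ 7`). -/
theorem G3 (T y p ρ ρs : ℝ) (hT : 7 ≤ T) (hρ0 : 0 < ρ) (hρ1 : ρ ≤ 1) (hp : p = pbar T ρ)
    (hyp : y ≤ p) (hW : 1 - ρ ≤ (2 * T - 1) * y) (h1 : ρ ≤ ρs) (h2 : 1 - (T - 1) * y ≤ ρs) :
    (T + 1) / 2 * y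
      + ((3 * (2 * T - 1) - 2) / (2 * T - 1) ^ 2 - (1 - ρ) ^ 2 / (2 * T - 1) - 2 * y * (1 - y)) / ρ
      + ((3 * (2 * T - 1) - 2) / (2 * T - 1) ^ 2 - (1 - ρ) ^ 2 / (2 * T - 1)) / ρs < 1 := by
  obtain ⟨N, hN⟩ : ∃ N, N = 2 * T - 1 := ⟨_, rfl⟩
  have hN13 : 13 ≤ N := by linarith
  have hN0 : 0 < N := by linarith
  have hNne : N ≠ 0 := hN0.ne'
  obtain ⟨ε, hε⟩ : ∃ ε, ε = 1 / N := ⟨_, rfl⟩
  have hεN : ε * N = 1 := by rw [hε]; field_simp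
  have hε0 : 0 ≤ ε := by rw [hε]; positivity
  have hε1 : ε ≤ 1 / 13 := by
    rw [hε]; exact one_div_le_one_div_of_le (by norm_num) hN13
  obtain ⟨q, hq⟩ : ∃ q, q = ρ * ((1 - ρ / 2) * (1 + 18 / 5 * ε)) := ⟨_, rfl⟩
  have hpN : p * N = 1 + q := by
    rw [hp, pbar, ← hN, ← hε, ← hq]; field_simp
  have hTN : T = (N + 1) / 2 := by linarith
  have hg := Bg ε ρ q (y * N) ρs hε0 hε1 hρ0 hρ1 hq
    (by rw [← hN] at hW; linarith)
    (by rw [← hpN]; exact mul_le_mul_of_nonneg_right hyp hN0.le)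
    h1
    (by
      have e : 1 - 1 / 2 * (1 - ε) * (y * N) = 1 - 1 / 2 * y * (N - ε * N) := by ring
      rw [e, hεN]
      rw [hTN] at h2
      linarith)
  rw [← hN]
  have e1 : (3 * N - 2) / N ^ 2 - (1 - ρ) ^ 2 / N = ε * (2 - 2 * ε + 2 * ρ - ρ ^ 2) := by
    rw [hε]; field_simp; ring
  have e2 : (3 * N - 2) / N ^ 2 - (1 - ρ) ^ 2 / N - 2 * y * (1 - y)
      = ε * (2 - 2 * ε + 2 * ρ - ρ ^ 2 - 2 * (y * N) * (1 - ε * (y * N))) := by
    rw [e1]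
    linear_combination (-2 * y + 2 * y ^ 2 * (1 + ε * N)) * (-1) * hεN
  rw [e2, e1]
  have e3 : (T + 1) / 2 * y = 1 / 4 * (1 + 3 * ε) * (y * N) := by
    rw [hTN]
    linear_combination (-3 / 4 * y) * hεN
  rw [e3]
  exact hg

end Pool.Agent.Helper52.LC
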