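import Pool.Agent.Helper52.LC.Prefix
import Pool.Agent.Helper39.LCCycles

/-!
# Loose cycles: the core statement for `t ≥ 6`
-/

namespace Pool.Agent.Helper52.LC

open Finset Pool.Agent.Helper66.LC Pool.Agent.Helper39.LC

variable {n : ℕ}

theorem avail_comm {V : Type*} [Fintype V] [DecidableEq V] (E : Finset (Finset V)) (a b : V) :
    avail E a b = avail E b a := by
  unfold avail
  ext m
  simp only [mem_filter, mem_univ, true_and]
  rw [Finset.insert_comm]

theorem card_avail_of_not_bad (E : Finset (Finset (Fin n))) (q : ℕ) (a b : Fin n) (hab : b ≠ a)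
    (h : b ∉ bad E q a) : q ≤ (avail E a b).card := by
  by_contra hcon
  push Not at hcon
  exact h (by simp [bad, hab, hcon])

namespace Setup

variable {t : ℕ} {E : Finset (Finset (Fin n))} {x : Fin n → ℝ} {θ : ℝ}

/-- The admissible connectors between the hubs `u` and `v`. -/
def conn (E : Finset (Finset (Fin n))) (t H : ℕ) (u v : Fin n) : Finset (Fin n) :=
  (univ.filter (fun i : Fin n => H ≤ i.1)) \ (bad E (2 * t - 2) u ∪ bad E (t - 2 + H) v)

theorem conn_card (S : Setup t n E x θ) (ht : 6 ≤ t) (H : ℕ) (hH : 3 ≤ H) (hHt : 2 * H ≤ t)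
    (u v : Fin n) (hu : u.1 ≤ H - 2) (hv : v.1 ≤ H - 1) :
    t - H ≤ (conn E t H u v).card := by
  have hn := S.hn
  have h1 := S.step ht H hH hHt u v hu hv
  have h2 := S.bad_full (by omega) u
  have h3 := S.bad_general v (t - 2 + H) (by omega)
  rw [show t - 2 + H + 1 = t - 1 + H by omega] at h3
  have h4 := S.sel H (t - 1 - H) (bad E (2 * t - 2) u) (bad E (t - 2 + H) v)
    (by rw [show H + (t - 1 - H) = t - 1 by omega]; linarith)
  unfold conn
  omega

theorem conn_spec {t H : ℕ} {u v c : Fin n} (hu : u.1 < H) (hv : v.1 < H)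
    (hc : c ∈ conn E t H u v) :
    H ≤ c.1 ∧ 2 * t - 2 ≤ (avail E u c).card ∧ t - 2 + H ≤ (avail E v c).card := by
  unfold conn at hc
  rw [mem_sdiff, mem_filter, mem_union] at hc
  obtain ⟨⟨-, h1⟩, h2⟩ := hc
  push Not at h2
  refine ⟨h1, ?_, ?_⟩
  · apply card_avail_of_not_bad _ _ _ _ _ h2.1
    intro h; rw [h] at h1; omega
  · apply card_avail_of_not_bad _ _ _ _ _ h2.2
    intro h; rw [h] at h1; omega

end Setup

/-- `Core t` for even `t = 2k ≥ 6`. -/
theorem core_even (k : ℕ) (hk : 3 ≤ k) : Core (2 * k) (by omega) := by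
  intro n E x θ hE hn hpos hs hsum hθ hlink
  have S : Setup (2 * k) n E x θ := ⟨hE, hn, hpos, hs, hsum, hθ, hlink⟩
  -- hubs
  let hub : Fin k → Fin n := fun i => ⟨i.1, by omega⟩
  -- lower and upper hub of step `i`
  let lo : Fin k → Fin n := fun i => if i.1 + 1 < k then ⟨i.1, by omega⟩ else ⟨0, by omega⟩
  let hi : Fin k → Fin n := fun i => if h : i.1 + 1 < k then ⟨i.1 + 1, by omega⟩ else ⟨k - 1, by omega⟩
  have hlo : ∀ i, (lo i).1 ≤ k - 2 := by
    intro i
    by_cases h : i.1 + 1 < k
    · simp only [lo, h, if_true]; omega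
    · simp only [lo, h, if_false]; omega
  have hhi : ∀ i, (hi i).1 ≤ k - 1 := by
    intro i
    by_cases h : i.1 + 1 < k
    · simp only [hi, h, dif_pos]; omega
    · simp only [hi, h, dif_neg, not_false_iff]; omega
  obtain ⟨c, hcinj, hc⟩ := sdr (fun i : Fin k => Setup.conn E (2 * k) k (lo i) (hi i))
    (fun i => by
      have := S.conn_card (by omega) k hk le_rfl (lo i) (hi i) (hlo i) (hhi i)
      omega)
  have hspec : ∀ i, k ≤ (c i).1 ∧ 2 * (2 * k) - 2 ≤ (avail E (lo i) (c i)).card
      ∧ 2 * k - 2 + k ≤ (avail E (hi i) (c i)).card := fun i =>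
    Setup.conn_spec (by have := hlo i; omega) (by have := hhi i; omega) (hc i)
  refine evenCycle k (by omega) E hE hub c ?_ hcinj ?_
    (fun i => if i.1 + 1 < k then 2 * (2 * k) - 2 else 2 * k - 2 + k)
    (fun i => if i.1 + 1 < k then 2 * k - 2 + k else 2 * (2 * k) - 2) ?_ ?_ ?_
  · intro i j hij
    simp only [hub, Fin.mk.injEq] at hij
    exact Fin.ext hij
  · intro i j h
    have := (hspec j).1
    rw [← h] at this
    simp only [hub] at this
    omega
  · intro i
    by_cases h : i.1 + 1 < k
    · simp only [h, if_true]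
      have := (hspec i).2.1
      simp only [lo, h, if_true] at this
      exact this
    · simp only [h, if_false]
      have := (hspec i).2.2
      have hik : i.1 = k - 1 := by omega
      simp only [hi, h, dif_neg, not_false_iff] at this
      simp only [hub, hik]
      exact this
  · intro i
    rw [avail_comm]
    by_cases h : i.1 + 1 < k
    · simp only [h, if_true]
      have := (hspec i).2.2
      simp only [hi, h, dif_pos] at this
      simp only [hub, Nat.mod_eq_of_lt h]
      exact this
    · simp only [h, if_false]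
      have := (hspec i).2.1
      have hik : i.1 + 1 = k := by omega
      simp only [lo, h, if_false] at this
      simp only [hub, hik, Nat.mod_self]
      exact this
  · intro m hm
    have e1 : (univ.filter (fun i : Fin k =>
        (if i.1 + 1 < k then 2 * (2 * k) - 2 else 2 * k - 2 + k) ≤ 2 * k - 2 + m)).card
        ≤ if k ≤ m then 1 else 0 := by
      split_ifs with hkm
      · rw [card_le_one]
        intro a ha b hb
        simp only [mem_filter, mem_univ, true_and] at ha hb
        have h1 : ¬ (a.1 + 1 < k) := by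
          intro h; simp only [h, if_true] at ha; omega
        have h2 : ¬ (b.1 + 1 < k) := by
          intro h; simp only [h, if_true] at hb; omega
        ext; omega
      · rw [Nat.le_zero, card_eq_zero, filter_eq_empty_iff]
        intro a _ ha
        split_ifs at ha <;> omega
    have e2 : (univ.filter (fun i : Fin k =>
        (if i.1 + 1 < k then 2 * k - 2 + k else 2 * (2 * k) - 2) ≤ 2 * k - 2 + m)).card
        ≤ if k ≤ m then k - 1 else 0 := by
      split_ifs with hkm
      · calc _ ≤ (univ.filter (fun i : Fin k => i.1 + 1 < k)).card := by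
              apply card_le_card
              intro a ha
              simp only [mem_filter, mem_univ, true_and] at ha ⊢
              by_contra h
              simp only [h, if_false] at ha
              omega
          _ ≤ (univ.erase (⟨k - 1, by omega⟩ : Fin k)).card := by
              apply card_le_card
              intro a ha
              simp only [mem_filter, mem_univ, true_and] at ha
              rw [mem_erase]
              refine ⟨?_, mem_univ _⟩
              intro h; rw [h] at ha; simp at ha; omega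
          _ = k - 1 := by rw [card_erase_of_mem (mem_univ _)]; simp
      · rw [Nat.le_zero, card_eq_zero, filter_eq_empty_iff]
        intro a _ ha
        split_ifs at ha <;> omega
    split_ifs at e1 e2 <;> omega

/-- `Core t` for odd `t = 2h + 1 ≥ 7`. -/
theorem core_odd (h : ℕ) (hh : 3 ≤ h) : Core (2 * h + 1) (by omega) := by
  intro n E x θ hE hn hpos hs hsum hθ hlink
  have S : Setup (2 * h + 1) n E x θ := ⟨hE, hn, hpos, hs, hsum, hθ, hlink⟩
  let hub : Fin h → Fin n := fun i => ⟨i.1, by omega⟩
  -- the first light connector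
  have hd1 : ∃ d1 : Fin n, h ≤ d1.1 ∧ d1 ∉ bad E (2 * (2 * h + 1) - 2) ⟨h - 1, by omega⟩ := by
    have h1 := S.step2 (by omega) h hh (by omega) ⟨h - 1, by omega⟩ le_rfl
    have h2 := S.bad_full (by omega) ⟨h - 1, by omega⟩
    have h3 := S.sel h 0 (bad E (2 * (2 * h + 1) - 2) ⟨h - 1, by omega⟩) ∅
      (by rw [sum_empty, Nat.add_zero]; linarith)
    obtain ⟨d1, hd⟩ := card_pos.mp (lt_of_lt_of_le Nat.zero_lt_one h3)
    rw [mem_sdiff, mem_filter, union_empty] at hd
    exact ⟨d1, hd.1.2, hd.2⟩
  obtain ⟨d1, hd1a, hd1b⟩ := hd1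
  -- the second light connector
  have hd2 : ∃ d2 : Fin n, h ≤ d2.1 ∧ d2 ≠ d1 ∧ d2 ∉ bad E (2 * (2 * h + 1) - 2) ⟨0, by omega⟩ ∧
      d2 ∉ bad E (2 * h + 1 - 1) d1 := by
    have h1 := S.step3 h hh rfl ⟨0, by omega⟩ d1 rfl
    have h2 := S.bad_full (by omega) ⟨0, by omega⟩
    have h3 := S.sel h 1 (bad E (2 * (2 * h + 1) - 2) ⟨0, by omega⟩) (bad E (2 * h + 1 - 1) d1)
      (by linarith)
    have h4 : 0 < (((univ.filter (fun i : Fin n => h ≤ i.1)) \
        (bad E (2 * (2 * h + 1) - 2) ⟨0, by omega⟩ ∪ bad E (2 * h + 1 - 1) d1)).erase d1).card := by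
      have := pred_card_le_card_erase (s := (univ.filter (fun i : Fin n => h ≤ i.1)) \
        (bad E (2 * (2 * h + 1) - 2) ⟨0, by omega⟩ ∪ bad E (2 * h + 1 - 1) d1)) (a := d1)
      omega
    obtain ⟨d2, hd⟩ := card_pos.mp h4
    rw [mem_erase, mem_sdiff, mem_filter, mem_union] at hd
    push Not at hd
    exact ⟨d2, hd.2.1.2, hd.1, hd.2.2.1, hd.2.2.2⟩
  obtain ⟨d2, hd2a, hd2b, hd2c, hd2d⟩ := hd2
  -- the connectors
  obtain ⟨c, hcinj, hc⟩ := sdr (fun i : Fin (h - 1) =>
      (Setup.conn E (2 * h + 1) h ⟨i.1, by omega⟩ ⟨i.1 + 1, by omega⟩) \ {d1, d2})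
    (fun i => by
      have h1 := S.conn_card (by omega) h hh (by omega) ⟨i.1, by omega⟩ ⟨i.1 + 1, by omega⟩
        (by simp only; omega) (by simp only; omega)
      have h2 := le_card_sdiff {d1, d2}
        (Setup.conn E (2 * h + 1) h ⟨i.1, by omega⟩ ⟨i.1 + 1, by omega⟩)
      have h3 : ({d1, d2} : Finset (Fin n)).card ≤ 2 := card_le_two
      omega)
  have hspec : ∀ i : Fin (h - 1), h ≤ (c i).1
      ∧ 2 * (2 * h + 1) - 2 ≤ (avail E ⟨i.1, by omega⟩ (c i)).card
      ∧ 2 * h + 1 - 2 + h ≤ (avail E ⟨i.1 + 1, by omega⟩ (c i)).card := fun i =>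
    Setup.conn_spec (by simp only; omega) (by simp only; omega) (mem_sdiff.mp (hc i)).1
  have hcd : ∀ i, c i ≠ d1 ∧ c i ≠ d2 := by
    intro i
    have := (mem_sdiff.mp (hc i)).2
    simp only [mem_insert, mem_singleton, not_or] at this
    exact this
  refine oddCycle h (by omega) E hE hub c d1 d2 ?_ hcinj ?_ hd2b.symm ?_ ?_
    (fun i => (hcd i).1.symm) (fun i => (hcd i).2.symm)
    (fun _ => 2 * (2 * h + 1) - 2) (fun _ => 2 * h + 1 - 2 + h)
    (2 * (2 * h + 1) - 2) (2 * h + 1 - 1) (2 * (2 * h + 1) - 2) ?_ ?_ ?_ ?_ ?_ ?_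
  · intro i j hij
    simp only [hub, Fin.mk.injEq] at hij
    exact Fin.ext hij
  · intro i j hij
    have := (hspec j).1
    rw [← hij] at this
    simp only [hub] at this
    omega
  · intro i hij
    rw [hij] at hd1a
    simp only [hub] at hd1a
    omega
  · intro i hij
    rw [hij] at hd2a
    simp only [hub] at hd2a
    omega
  · intro i; exact (hspec i).2.1
  · intro i; rw [avail_comm]; exact (hspec i).2.2
  · apply card_avail_of_not_bad _ _ _ _ _ hd1b
    intro hij; rw [hij] at hd1a; simp only at hd1a; omega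
  · exact card_avail_of_not_bad _ _ _ _ hd2b hd2d
  · rw [avail_comm]
    apply card_avail_of_not_bad _ _ _ _ _ hd2c
    intro hij; rw [hij] at hd2a; simp only at hd2a; omega
  · intro m hm
    have e1 : (univ.filter (fun _ : Fin (h - 1) => 2 * (2 * h + 1) - 2 ≤ 2 * h - 1 + m)).card = 0 := by
      rw [card_eq_zero, filter_eq_empty_iff]
      intro a _ ha; omega
    have e2 : (univ.filter (fun _ : Fin (h - 1) => 2 * h + 1 - 2 + h ≤ 2 * h - 1 + m)).card
        ≤ if h ≤ m then h - 1 else 0 := by
      split_ifs with hm'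
      · calc _ ≤ (univ : Finset (Fin (h - 1))).card := card_le_card (filter_subset _ _)
          _ = h - 1 := by simp
      · rw [Nat.le_zero, card_eq_zero, filter_eq_empty_iff]
        intro a _ ha; omega
    rw [e1]
    split_ifs at e2 ⊢ <;> omega

end Pool.Agent.Helper52.LC
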