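import Pool.Agent.Helper52.LC.IneqG1
import Pool.Agent.Helper66.LCCost

/-!
# Loose cycles, `t ≥ 6`: from a weight vector to the inequalities `G1`, `G2`, `G3`
-/

namespace Pool.Agent.Helper52.LC

open Finset Pool.Agent.Helper66.LC

variable {n : ℕ}

theorem W_add_le (x : Fin n → ℝ) (h k : ℕ) (c : ℝ) (hc0 : 0 ≤ c)
    (hc : ∀ i : Fin n, h ≤ i.1 → x i ≤ c) : W x (h + k) ≤ W x h + k * c := by
  have h1 := W_sub_W x h k
  have h2 : ∑ i ∈ univ.filter (fun i : Fin n => h ≤ i.1 ∧ i.1 < h + k), x i ≤ k * c := by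
    calc ∑ i ∈ univ.filter (fun i : Fin n => h ≤ i.1 ∧ i.1 < h + k), x i
        ≤ ∑ i ∈ univ.filter (fun i : Fin n => h ≤ i.1 ∧ i.1 < h + k), c := by
          apply sum_le_sum
          intro i hi
          exact hc i (mem_filter.mp hi).2.1
      _ = (univ.filter (fun i : Fin n => h ≤ i.1 ∧ i.1 < h + k)).card * c := by
          rw [sum_const, nsmul_eq_mul]
      _ ≤ k * c := by
          apply mul_le_mul_of_nonneg_right _ hc0
          have : (univ.filter (fun i : Fin n => h ≤ i.1 ∧ i.1 < h + k)).card ≤ k := by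
            have hinj : (univ.filter (fun i : Fin n => h ≤ i.1 ∧ i.1 < h + k)).card
                = ((univ.filter (fun i : Fin n => h ≤ i.1 ∧ i.1 < h + k)).map
                    Fin.valEmbedding).card := (card_map _).symm
            rw [hinj]
            calc _ ≤ (Finset.Ico h (h + k)).card := by
                  apply card_le_card
                  intro j hj
                  rw [mem_map] at hj
                  obtain ⟨i, hi, rfl⟩ := hj
                  rw [mem_Ico]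
                  exact (mem_filter.mp hi).2
              _ = k := by simp
          exact_mod_cast this
  linarith

/-- `μ_a ≤ κ₀ - Q - 2 x_a (1 - x_a)`. -/
theorem mu_le (t : ℕ) (ht : 2 ≤ t) (x : Fin n → ℝ) (θ : ℝ)
    (hθ : ((2 * t - 2) * (2 * t - 3) : ℝ) / (2 * t - 1) ^ 2 ≤ θ) (a : Fin n) :
    mu x θ a ≤ (3 * (2 * (t : ℝ) - 1) - 2) / (2 * t - 1) ^ 2 - ∑ i, x i ^ 2
      - 2 * x a * (1 - x a) := by
  have htR : (2 : ℝ) ≤ t := by exact_mod_cast ht
  have hN : (0 : ℝ) < 2 * t - 1 := by linarith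
  have e : (3 * (2 * (t : ℝ) - 1) - 2) / (2 * t - 1) ^ 2
      = 1 - ((2 * t - 2) * (2 * t - 3) : ℝ) / (2 * t - 1) ^ 2 := by
    field_simp; ring
  rw [e]
  unfold mu
  nlinarith

theorem W_sq_le (x : Fin n → ℝ) (k : ℕ) : W x k ^ 2 ≤ k * ∑ i, x i ^ 2 := by
  unfold W
  calc (∑ i ∈ univ.filter (fun i : Fin n => i.1 < k), x i) ^ 2
      ≤ (univ.filter (fun i : Fin n => i.1 < k)).card
        * ∑ i ∈ univ.filter (fun i : Fin n => i.1 < k), x i ^ 2 := sq_sum_le_card_mul_sum_sq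
    _ ≤ k * ∑ i, x i ^ 2 := by
        apply mul_le_mul
        · have : (univ.filter (fun i : Fin n => i.1 < k)).card ≤ k := by
            have hinj : (univ.filter (fun i : Fin n => i.1 < k)).card
                = ((univ.filter (fun i : Fin n => i.1 < k)).map
                    Fin.valEmbedding).card := (card_map _).symm
            rw [hinj]
            calc _ ≤ (Finset.range k).card := by
                  apply card_le_card
                  intro j hj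
                  rw [mem_map] at hj
                  obtain ⟨i, hi, rfl⟩ := hj
                  rw [mem_range]
                  exact (mem_filter.mp hi).2
              _ = k := by simp
          exact_mod_cast this
        · exact sum_le_sum_of_subset_of_nonneg (filter_subset _ _) fun i _ _ => sq_nonneg _
        · exact sum_nonneg fun i _ => sq_nonneg _
        · exact Nat.cast_nonneg _

/-- `K ≤ 2 p (1 - p)`. -/
theorem K_le (T ρ : ℝ) (hT : 6 ≤ T) (hρ0 : 0 ≤ ρ) (hρ1 : ρ ≤ 1) :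
    (3 * (2 * T - 1) - 2) / (2 * T - 1) ^ 2 - (1 - ρ) ^ 2 / (2 * T - 1)
      ≤ 2 * pbar T ρ * (1 - pbar T ρ) := by
  obtain ⟨N, hN⟩ : ∃ N, N = 2 * T - 1 := ⟨_, rfl⟩
  have hN11 : 11 ≤ N := by linarith
  have hN0 : 0 < N := by linarith
  have hNne : N ≠ 0 := hN0.ne'
  obtain ⟨ε, hε⟩ : ∃ ε, ε = 1 / N := ⟨_, rfl⟩
  have hε0 : 0 ≤ ε := by rw [hε]; positivity
  have hε1 : ε ≤ 1 / 11 := by
    rw [hε]; exact one_div_le_one_div_of_le (by norm_num) hN11
  obtain ⟨q, hq⟩ : ∃ q, q = ρ * ((1 - ρ / 2) * (1 + 18 / 5 * ε)) := ⟨_, rfl⟩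
  have hv := qbar_valid ε ρ q hε0 hε1 hρ0 hρ1 hq
  have hp : pbar T ρ = (1 + q) * ε := by
    rw [pbar, ← hN, ← hε, ← hq, hε]; field_simp
  rw [hp, ← hN]
  have e1 : (3 * N - 2) / N ^ 2 - (1 - ρ) ^ 2 / N = ε * (2 - 2 * ε + 2 * ρ - ρ ^ 2) := by
    rw [hε]; field_simp; ring
  rw [e1]
  have e2 : 2 * ((1 + q) * ε) * (1 - (1 + q) * ε) = ε * (2 * ((1 + q) * (1 - ε * (1 + q)))) := by ring
  rw [e2]
  apply mul_le_mul_of_nonneg_left _ hε0
  linarith

/-- The standing assumptions of `Core`, bundled. -/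
structure Setup (t n : ℕ) (E : Finset (Finset (Fin n))) (x : Fin n → ℝ) (θ : ℝ) : Prop where
  hE : IsThreeGraph E
  hn : 2 * t ≤ n
  hpos : ∀ i, 0 < x i
  hs : ∀ i j, i ≤ j → x j ≤ x i
  hsum : ∑ i, x i = 1
  hθ : ((2 * t - 2) * (2 * t - 3) : ℝ) / (2 * t - 1) ^ 2 ≤ θ
  hlink : ∀ a, ∑ b, ∑ c, (if ({a, b, c} : Finset (Fin n)) ∈ E then x b * x c else 0) = θ

namespace Setup

variable {t : ℕ} {E : Finset (Finset (Fin n))} {x : Fin n → ℝ} {θ : ℝ}

theorem hx (S : Setup t n E x θ) : ∀ i, 0 ≤ x i := fun i => (S.hpos i).le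

theorem W_lt_one (S : Setup t n E x θ) {k : ℕ} (hk : k < n) : W x k < 1 := by
  rw [← S.hsum]
  unfold W
  have hmem : (⟨k, hk⟩ : Fin n) ∉ univ.filter (fun i : Fin n => i.1 < k) := by simp
  calc ∑ i ∈ univ.filter (fun i : Fin n => i.1 < k), x i
      < ∑ i ∈ insert (⟨k, hk⟩ : Fin n) (univ.filter (fun i : Fin n => i.1 < k)), x i := by
        rw [sum_insert hmem]; linarith [S.hpos ⟨k, hk⟩]
    _ ≤ ∑ i, x i := sum_le_sum_of_subset_of_nonneg (subset_univ _) fun i _ _ => S.hx i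

theorem mu_nn (S : Setup t n E x θ) (a : Fin n) : 0 ≤ mu x θ a :=
  mu_nonneg S.hE S.hx S.hsum S.hlink a

theorem x_lt_half (S : Setup t n E x θ) (ht : 4 ≤ t) (a : Fin n) : x a < 1 / 2 := by
  have h1 := mu_le t (by omega) x θ S.hθ a
  have h2 := S.mu_nn a
  have h3 : x a ^ 2 ≤ ∑ i, x i ^ 2 :=
    single_le_sum (f := fun i => x i ^ 2) (fun i _ => sq_nonneg _) (mem_univ a)
  have htR : (4 : ℝ) ≤ t := by exact_mod_cast ht
  have h4 : (3 * (2 * (t : ℝ) - 1) - 2) / (2 * t - 1) ^ 2 ≤ 1 / 2 := by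
    rw [div_le_iff₀ (by nlinarith)]
    nlinarith
  have h5 : x a ≤ 1 := by
    rw [← S.hsum]; exact single_le_sum (f := x) (fun i _ => S.hx i) (mem_univ a)
  by_contra hcon
  push Not at hcon
  nlinarith

theorem Q_ge (S : Setup t n E x θ) (ht : 4 ≤ t) :
    W x (2 * t - 1) ^ 2 / (2 * t - 1) ≤ ∑ i, x i ^ 2 := by
  have htR : (4 : ℝ) ≤ t := by exact_mod_cast ht
  have h := W_sq_le x (2 * t - 1)
  have e : ((2 * t - 1 : ℕ) : ℝ) = 2 * t - 1 := by
    rw [Nat.cast_sub (by omega)]; push_cast; ring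
  rw [e] at h
  rw [div_le_iff₀ (by linarith)]
  linarith

/-- `μ_a ≤ K - 2 x_a (1 - x_a)`. -/
theorem mu_le_K (S : Setup t n E x θ) (ht : 4 ≤ t) (a : Fin n) :
    mu x θ a ≤ (3 * (2 * (t : ℝ) - 1) - 2) / (2 * t - 1) ^ 2
      - (1 - (1 - W x (2 * t - 1))) ^ 2 / (2 * t - 1) - 2 * x a * (1 - x a) := by
  have h1 := mu_le t (by omega) x θ S.hθ a
  have h2 := S.Q_ge ht
  have e : (1 - (1 - W x (2 * t - 1))) ^ 2 = W x (2 * t - 1) ^ 2 := by ring
  rw [e]
  linarith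

theorem rho_pos (S : Setup t n E x θ) (ht : 1 ≤ t) : 0 < 1 - W x (2 * t - 1) := by
  have := S.W_lt_one (k := 2 * t - 1) (by have := S.hn; omega)
  linarith

theorem rho_le (S : Setup t n E x θ) : 1 - W x (2 * t - 1) ≤ 1 := by
  have := W_nonneg x S.hx (2 * t - 1)
  linarith

theorem x_le_p (S : Setup t n E x θ) (ht : 6 ≤ t) (a : Fin n) :
    x a ≤ pbar t (1 - W x (2 * t - 1)) := by
  have htR : (6 : ℝ) ≤ t := by exact_mod_cast ht
  have hK := K_le t (1 - W x (2 * t - 1)) htR (S.rho_pos (by omega)).le S.rho_le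
  have h1 := S.mu_le_K (by omega) a
  have h2 := S.mu_nn a
  have h3 := S.x_lt_half (by omega) a
  have h4 := pbar_le t (1 - W x (2 * t - 1)) htR (S.rho_pos (by omega)).le S.rho_le
  by_contra hcon
  push Not at hcon
  nlinarith [mul_pos (sub_pos.mpr hcon) (show 0 < 1 - x a - pbar t (1 - W x (2 * t - 1)) by linarith)]

/-- `μ_u ≤ 2 (p - a) (1 - p - a)` when `a ≤ x_u`. -/
theorem mu_le_of_le (S : Setup t n E x θ) (ht : 6 ≤ t) (u : Fin n) (a : ℝ) (ha : a ≤ x u) :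
    mu x θ u ≤ 2 * (pbar t (1 - W x (2 * t - 1)) - a)
      * (1 - pbar t (1 - W x (2 * t - 1)) - a) := by
  have htR : (6 : ℝ) ≤ t := by exact_mod_cast ht
  have hK := K_le t (1 - W x (2 * t - 1)) htR (S.rho_pos (by omega)).le S.rho_le
  have h1 := S.mu_le_K (by omega) u
  have h3 := S.x_lt_half (by omega) u
  have h5 : 0 ≤ (x u - a) * (1 - x u - a) := mul_nonneg (by linarith) (by linarith)
  nlinarith

/-- Selection: if the excluded weight is small then many vertices remain. -/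
theorem sel (S : Setup t n E x θ) (H k : ℕ) (A B : Finset (Fin n))
    (h : W x (H + k) + ∑ i ∈ A, x i + ∑ i ∈ B, x i < 1) :
    k + 1 ≤ ((univ.filter (fun i : Fin n => H ≤ i.1)) \ (A ∪ B)).card := by
  by_contra hcon
  push Not at hcon
  have h1 : ∑ i ∈ (univ.filter (fun i : Fin n => H ≤ i.1)) \ (A ∪ B), x i
      ≤ W x (H + k) - W x H := by
    apply sum_le_W_sub_W x S.hx S.hs
    · intro i hi
      exact (mem_filter.mp (mem_sdiff.mp hi).1).2
    · omega
  have h2 : (1 : ℝ) = W x H + ∑ i ∈ univ.filter (fun i : Fin n => H ≤ i.1), x i := by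
    rw [← S.hsum]
    unfold W
    rw [← sum_filter_add_sum_filter_not univ (fun i : Fin n => i.1 < H)]
    simp
  have h3 : ∑ i ∈ univ.filter (fun i : Fin n => H ≤ i.1), x i
      ≤ ∑ i ∈ (univ.filter (fun i : Fin n => H ≤ i.1)) \ (A ∪ B), x i
        + (∑ i ∈ A, x i + ∑ i ∈ B, x i) := by
    have h4 : ∑ i ∈ univ.filter (fun i : Fin n => H ≤ i.1), x i
        ≤ ∑ i ∈ ((univ.filter (fun i : Fin n => H ≤ i.1)) \ (A ∪ B)) ∪ (A ∪ B), x i := by
      apply sum_le_sum_of_subset_of_nonneg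
      · intro i hi
        by_cases hm : i ∈ A ∪ B
        · exact mem_union_right _ hm
        · exact mem_union_left _ (mem_sdiff.mpr ⟨hi, hm⟩)
      · intro i _ _; exact S.hx i
    have h5 : ∀ X Y : Finset (Fin n), ∑ i ∈ X ∪ Y, x i ≤ ∑ i ∈ X, x i + ∑ i ∈ Y, x i := by
      intro X Y
      have := sum_union_inter (s₁ := X) (s₂ := Y) (f := x)
      have h6 : 0 ≤ ∑ i ∈ X ∩ Y, x i := sum_nonneg fun i _ => S.hx i
      linarith
    have h6 := h5 ((univ.filter (fun i : Fin n => H ≤ i.1)) \ (A ∪ B)) (A ∪ B)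
    have h7 := h5 A B
    linarith
  linarith

/-- The weight of the bad partners, full threshold. -/
theorem bad_full (S : Setup t n E x θ) (ht : 1 ≤ t) (u : Fin n) :
    ∑ i ∈ bad E (2 * t - 2) u, x i ≤ mu x θ u / (1 - W x (2 * t - 1)) := by
  have h := cost_bad S.hE S.hx S.hs S.hsum S.hlink u (2 * t - 2)
  have e : 2 * t - 2 + 1 = 2 * t - 1 := by omega
  rw [e] at h
  rw [le_div_iff₀ (S.rho_pos ht)]
  exact h

theorem bad_general (S : Setup t n E x θ) (u : Fin n) (q : ℕ) (hq : q + 1 < n) :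
    ∑ i ∈ bad E q u, x i ≤ mu x θ u / (1 - W x (q + 1)) := by
  have h := cost_bad S.hE S.hx S.hs S.hsum S.hlink u q
  have hp := S.W_lt_one hq
  rw [le_div_iff₀ (by linarith)]
  exact h

/-- The inequality for the single steps. -/
theorem step (S : Setup t n E x θ) (ht : 6 ≤ t) (H : ℕ) (hH : 3 ≤ H) (hHt : 2 * H ≤ t)
    (u v : Fin n) (hu : u.1 ≤ H - 2) (hv : v.1 ≤ H - 1) :
    W x (t - 1) + mu x θ u / (1 - W x (2 * t - 1)) + mu x θ v / (1 - W x (t - 1 + H)) < 1 := by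
  have hn := S.hn
  have htR : (6 : ℝ) ≤ t := by exact_mod_cast ht
  have hHR : (3 : ℝ) ≤ H := by exact_mod_cast hH
  have hHtR : 2 * (H : ℝ) ≤ t := by exact_mod_cast hHt
  obtain ⟨ρ, hρ⟩ : ∃ ρ, ρ = 1 - W x (2 * t - 1) := ⟨_, rfl⟩
  obtain ⟨p, hp⟩ : ∃ p, p = pbar t ρ := ⟨_, rfl⟩
  have hρ0 : 0 < ρ := by rw [hρ]; exact S.rho_pos (by omega)
  have hρ1 : ρ ≤ 1 := by rw [hρ]; exact S.rho_le
  have hp0 : 0 ≤ p := by rw [hp]; exact (pbar_pos t ρ htR hρ0.le hρ1).le
  obtain ⟨ia, hia⟩ : ∃ i : Fin n, i.1 = H - 2 := ⟨⟨H - 2, by omega⟩, rfl⟩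
  obtain ⟨ib, hib⟩ : ∃ i : Fin n, i.1 = H - 1 := ⟨⟨H - 1, by omega⟩, rfl⟩
  have hxp : ∀ i, x i ≤ p := by
    intro i; rw [hp, hρ]; exact S.x_le_p ht i
  have hba : x ib ≤ x ia := S.hs _ _ (by rw [Fin.le_def]; omega)
  have hW2 : W x (H - 2) ≤ (H - 2 : ℝ) * p := by
    have := W_add_le x 0 (H - 2) p hp0 (fun i _ => hxp i)
    rw [W_zero, Nat.zero_add, Nat.cast_sub (by omega)] at this
    push_cast at this
    linarith
  have hW1 : W x (H - 1) ≤ W x (H - 2) + x ia := by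
    have := W_add_le x (H - 2) 1 (x ia) (S.hx _) (fun i hi => S.hs _ _ (by rw [Fin.le_def]; omega))
    rw [show H - 2 + 1 = H - 1 by omega] at this
    simpa using this
  have hWb : ∀ k : ℕ, W x (H - 1 + k) ≤ W x (H - 1) + k * x ib := fun k =>
    W_add_le x (H - 1) k (x ib) (S.hx _) (fun i hi => S.hs _ _ (by rw [Fin.le_def]; omega))
  have hWt : W x (t - 1) ≤ (H - 2 : ℝ) * p + x ia + (t - H) * x ib := by
    have := hWb (t - H)
    rw [show H - 1 + (t - H) = t - 1 by omega, Nat.cast_sub (by omega)] at this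
    linarith
  have hWs : W x (t - 1 + H) ≤ (H - 2 : ℝ) * p + x ia + t * x ib := by
    have := hWb t
    rw [show H - 1 + t = t - 1 + H by omega] at this
    linarith
  have hWN : W x (2 * t - 1) ≤ ((H : ℝ) - 1) * p + (2 * t - H) * x ib := by
    have := hWb (2 * t - H)
    rw [show H - 1 + (2 * t - H) = 2 * t - 1 by omega, Nat.cast_sub (by omega)] at this
    push_cast at this
    have := hxp ia
    linarith
  have hab : x ia + x ib ≤ 1 - ρ := by
    have hne : ia ≠ ib := by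
      intro h; rw [h] at hia; omega
    have h1 : ∑ i ∈ ({ia, ib} : Finset (Fin n)), x i ≤ W x (2 * t - 1) := by
      apply sum_le_W x S.hx S.hs
      rw [card_pair hne]; omega
    rw [sum_pair hne] at h1
    rw [hρ]; linarith
  have hmono : W x (t - 1 + H) ≤ W x (2 * t - 1) := W_mono x S.hx (by omega)
  have hg := G1 t H p (x ia) (x ib) ρ (1 - W x (t - 1 + H)) htR hHtR hρ0 hρ1 hp (S.hx _) hba
    (hxp ia) hab (by rw [hρ]; linarith) (by rw [hρ]; linarith) (by linarith)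
  have hmu : mu x θ u ≤ 2 * (p - x ia) * (1 - p - x ia) := by
    rw [hp, hρ]
    exact S.mu_le_of_le ht u (x ia) (S.hs _ _ (by rw [Fin.le_def]; omega))
  have hmv : mu x θ v ≤ 2 * (p - x ib) * (1 - p - x ib) := by
    rw [hp, hρ]
    exact S.mu_le_of_le ht v (x ib) (S.hs _ _ (by rw [Fin.le_def]; omega))
  have hρs : 0 < 1 - W x (t - 1 + H) := by
    have := S.rho_pos (t := t) (by omega)
    linarith
  rw [← hρ]
  have h1 := div_le_div_of_nonneg_right hmu hρ0.le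
  have h2 := div_le_div_of_nonneg_right hmv hρs.le
  linarith

/-- Existence of the first light connector. -/
theorem step2 (S : Setup t n E x θ) (ht : 6 ≤ t) (H : ℕ) (hH : 3 ≤ H) (hHt : 2 * H ≤ t)
    (v : Fin n) (hv : v.1 ≤ H - 1) :
    W x H + mu x θ v / (1 - W x (2 * t - 1)) < 1 := by
  have hn := S.hn
  have htR : (6 : ℝ) ≤ t := by exact_mod_cast ht
  have hHR : (3 : ℝ) ≤ H := by exact_mod_cast hH
  have hHtR : 2 * (H : ℝ) ≤ t := by exact_mod_cast hHt
  obtain ⟨ρ, hρ⟩ : ∃ ρ, ρ = 1 - W x (2 * t - 1) := ⟨_, rfl⟩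
  obtain ⟨p, hp⟩ : ∃ p, p = pbar t ρ := ⟨_, rfl⟩
  have hρ0 : 0 < ρ := by rw [hρ]; exact S.rho_pos (by omega)
  have hρ1 : ρ ≤ 1 := by rw [hρ]; exact S.rho_le
  have hp0 : 0 ≤ p := by rw [hp]; exact (pbar_pos t ρ htR hρ0.le hρ1).le
  obtain ⟨ib, hib⟩ : ∃ i : Fin n, i.1 = H - 1 := ⟨⟨H - 1, by omega⟩, rfl⟩
  have hxp : ∀ i, x i ≤ p := by
    intro i; rw [hp, hρ]; exact S.x_le_p ht i
  have hW1 : W x (H - 1) ≤ (H - 1 : ℝ) * p := by
    have := W_add_le x 0 (H - 1) p hp0 (fun i _ => hxp i)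
    rw [W_zero, Nat.zero_add, Nat.cast_sub (by omega)] at this
    push_cast at this
    linarith
  have hWb : ∀ k : ℕ, W x (H - 1 + k) ≤ W x (H - 1) + k * x ib := fun k =>
    W_add_le x (H - 1) k (x ib) (S.hx _) (fun i hi => S.hs _ _ (by rw [Fin.le_def]; omega))
  have hWH : W x H ≤ (H - 1 : ℝ) * p + x ib := by
    have := hWb 1
    rw [show H - 1 + 1 = H by omega] at this
    push_cast at this
    linarith
  have hWN : W x (2 * t - 1) ≤ ((H : ℝ) - 1) * p + (2 * t - H) * x ib := by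
    have := hWb (2 * t - H)
    rw [show H - 1 + (2 * t - H) = 2 * t - 1 by omega, Nat.cast_sub (by omega)] at this
    push_cast at this
    linarith
  have hg := G2 t H p (x ib) ρ htR hHtR hρ0 hρ1 hp (S.hx _) (hxp ib) (by rw [hρ]; linarith)
  have hmv : mu x θ v ≤ 2 * (p - x ib) * (1 - p - x ib) := by
    rw [hp, hρ]
    exact S.mu_le_of_le ht v (x ib) (S.hs _ _ (by rw [Fin.le_def]; omega))
  rw [← hρ]
  have h2 := div_le_div_of_nonneg_right hmv hρ0.le
  linarith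

/-- Existence of the second light connector (`t = 2 h + 1`). -/
theorem step3 (S : Setup t n E x θ) (h : ℕ) (hh : 3 ≤ h) (hth : t = 2 * h + 1)
    (u d : Fin n) (hu : u.1 = 0) :
    W x (h + 1) + mu x θ u / (1 - W x (2 * t - 1)) + ∑ i ∈ bad E (t - 1) d, x i < 1 := by
  have hn := S.hn
  have htR : (7 : ℝ) ≤ t := by
    have : 7 ≤ t := by omega
    exact_mod_cast this
  have hhR : (t : ℝ) = 2 * h + 1 := by rw [hth]; push_cast; ring
  obtain ⟨ρ, hρ⟩ : ∃ ρ, ρ = 1 - W x (2 * t - 1) := ⟨_, rfl⟩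
  obtain ⟨p, hp⟩ : ∃ p, p = pbar t ρ := ⟨_, rfl⟩
  have hρ0 : 0 < ρ := by rw [hρ]; exact S.rho_pos (by omega)
  have hρ1 : ρ ≤ 1 := by rw [hρ]; exact S.rho_le
  have hxu : ∀ i, x i ≤ x u := fun i => S.hs _ _ (by rw [Fin.le_def]; omega)
  have hWk : ∀ k : ℕ, W x k ≤ k * x u := by
    intro k
    have := W_add_le x 0 k (x u) (S.hx _) (fun i _ => hxu i)
    rw [W_zero, Nat.zero_add] at this
    linarith
  have hN := hWk (2 * t - 1)
  rw [Nat.cast_sub (by omega)] at hN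
  push_cast at hN
  have ht1 := hWk (t - 1)
  rw [Nat.cast_sub (by omega)] at ht1
  push_cast at ht1
  have hh1 := hWk (h + 1)
  push_cast at hh1
  have hmono : W x (t - 1) ≤ W x (2 * t - 1) := W_mono x S.hx (by omega)
  have hg := G3 t (x u) p ρ (1 - W x (t - 1)) htR hρ0 hρ1 hp
    (by rw [hp, hρ]; exact S.x_le_p (by omega) u) (by rw [hρ]; linarith) (by rw [hρ]; linarith)
    (by linarith)
  obtain ⟨K, hK⟩ : ∃ K, K = (3 * (2 * (t : ℝ) - 1) - 2) / (2 * t - 1) ^ 2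
      - (1 - ρ) ^ 2 / (2 * t - 1) := ⟨_, rfl⟩
  rw [← hK] at hg
  have hR : 0 < 1 - W x (t - 1) := by
    have := S.rho_pos (t := t) (by omega)
    linarith
  have hmu : mu x θ u ≤ K - 2 * x u * (1 - x u) := by
    rw [hK, hρ]; exact S.mu_le_K (by omega) u
  have hmd : mu x θ d ≤ K - 2 * x d * (1 - x d) := by
    rw [hK, hρ]; exact S.mu_le_K (by omega) d
  have hbad := cost_bad' S.hE S.hx S.hs S.hsum S.hlink d (t - 1)
  obtain ⟨β, hβ⟩ : ∃ β, β = ∑ i ∈ bad E (t - 1) d, x i := ⟨_, rfl⟩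
  rw [← hβ] at hbad ⊢
  have hβ1 : β ≤ 1 := by
    rw [hβ, ← S.hsum]
    exact sum_le_sum_of_subset_of_nonneg (subset_univ _) fun i _ _ => S.hx i
  have hxd := S.x_lt_half (by omega) d
  have hxd0 := S.hx d
  have hβK : β ≤ K / (1 - W x (t - 1)) := by
    rw [le_div_iff₀ hR]
    nlinarith [mul_nonneg hxd0 (sub_nonneg.mpr hβ1)]
  rw [← hρ]
  have h2 := div_le_div_of_nonneg_right hmu hρ0.le
  have e : ((t : ℝ) + 1) / 2 * x u = (h + 1) * x u := by rw [hhR]; ring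
  rw [e] at hg
  linarith

end Setup

end Pool.Agent.Helper52.LC
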